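import Pool.Agent.U671.SD.KST

/-!
Links on curves, part 3: incidences between points and sets contained in thin semialgebraic sets.
-/

set_option autoImplicit false

namespace Pool.Agent.U671.LC

open Finset
open Pool.Agent.U671.SD

open scoped Classical

theorem full_aux {a b t A e : ℝ} (hA : 1 ≤ A) (ha : A ≤ a) (hb : A ≤ b) (ht : 0 ≤ t)
    (h : e ≤ (b ^ 2 * (t * a ^ 3)) ^ (1 / (3 : ℝ)) + 3 * b) :
    e ≤ (t ^ (1 / (3 : ℝ)) * A ^ (-(1 / (3 : ℝ))) + 3 / A) * (a * b) := by
  have ha0 : 0 < a := by linarith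
  have hb0 : 0 < b := by linarith
  have hA0 : 0 < A := by linarith
  have h1 : (b ^ 2 * (t * a ^ 3)) ^ (1 / (3 : ℝ)) = t ^ (1 / (3 : ℝ)) * b ^ (-(1 / (3 : ℝ))) * (a * b) := by
    have e1 : b ^ 2 * (t * a ^ 3) = t * (b ^ (-1 : ℝ) * (a * b) ^ 3) := by
      rw [Real.rpow_neg_one]
      field_simp
    rw [e1, Real.mul_rpow ht (by positivity), Real.mul_rpow (by positivity) (by positivity),
      ← Real.rpow_mul hb0.le, ← Real.rpow_natCast (a * b) 3, ← Real.rpow_mul (by positivity)]
    norm_num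
    ring
  have h2 : b ^ (-(1 / (3 : ℝ))) ≤ A ^ (-(1 / (3 : ℝ))) :=
    Real.rpow_le_rpow_of_nonpos hA0 hb (by norm_num)
  have h3 : 3 * b ≤ 3 / A * (a * b) := by
    have h4 : 1 ≤ a / A := by rw [le_div_iff₀ hA0]; linarith
    calc 3 * b = 3 * b * 1 := by ring
      _ ≤ 3 * b * (a / A) := mul_le_mul_of_nonneg_left h4 (by positivity)
      _ = 3 / A * (a * b) := by ring
  have h5 : t ^ (1 / (3 : ℝ)) * b ^ (-(1 / (3 : ℝ))) * (a * b) ≤
      t ^ (1 / (3 : ℝ)) * A ^ (-(1 / (3 : ℝ))) * (a * b) := by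
    refine mul_le_mul_of_nonneg_right (mul_le_mul_of_nonneg_left h2 (by positivity)) (by positivity)
  calc e ≤ _ := h
    _ = t ^ (1 / (3 : ℝ)) * b ^ (-(1 / (3 : ℝ))) * (a * b) + 3 * b := by rw [h1]
    _ ≤ t ^ (1 / (3 : ℝ)) * A ^ (-(1 / (3 : ℝ))) * (a * b) + 3 / A * (a * b) := add_le_add h5 h3
    _ = _ := by ring

theorem core {N t K D1 n W T A : ℕ} (R : Fin N → Fin N → Prop)
    (hfree : ∀ S : Finset (Fin N), S.card = 3 →
      (univ.filter (fun q => ∀ u ∈ S, R q u)).card ≤ t)
    (hdeg : ∀ p, (univ.filter (fun q => R q p)).card ≤ n)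
    (S : Fin N → Finset (Fin N)) (hRS : ∀ q p, R q p → p ∈ S q)
    (hSc : ∀ q, (S q).card ≤ D1 * n)
    {κ : Type} [Fintype κ] (c : Fin N → Option κ) (hW : 1 ≤ W)
    (hκ : Fintype.card κ ≤ K * W) (hnone : (univ.filter (fun i => c i = none)).card ≤ K * W)
    (hcell : ∀ σ, (univ.filter (fun i => c i = some σ)).card * W ≤ N)
    (hT : ∀ x, (univ.filter (fun σ : κ => ∃ i i', c i = some σ ∧ c i' = some σ ∧
      i ∈ S x ∧ i' ∉ S x)).card ≤ T) (hA : 1 ≤ A) :
    ((∑ q, (univ.filter (R q)).card : ℕ) : ℝ) ≤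
      ((K : ℝ) * W * (1 + A) * n) +
      ((((N : ℝ) * T) ^ 2 * (t * (K * W * ((N : ℝ) / W) ^ 3))) ^ (1 / (3 : ℝ)) + 3 * (N * T)) +
      (((t : ℝ) ^ (1 / (3 : ℝ)) * (A : ℝ) ^ (-(1 / (3 : ℝ))) + 3 / A) * (N * (D1 * n)) + A * N) := by
  set cl : κ → Finset (Fin N) := fun σ => univ.filter (fun i => c i = some σ) with hcl
  set nb : Fin N → Finset (Fin N) := fun x => univ.filter (R x) with hnb
  set Cr : Fin N → Finset κ := fun x => univ.filter (fun σ : κ => ∃ i i', c i = some σ ∧
    c i' = some σ ∧ i ∈ S x ∧ i' ∉ S x) with hCr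
  set sm : Finset κ := univ.filter (fun σ => (cl σ).card < A) with hsm
  set P0 : Finset (Fin N) := univ.filter (fun i => c i = none) ∪ sm.biUnion cl with hP0
  set B1 : κ → Finset (Fin N) := fun σ => univ.filter (fun x => σ ∈ Cr x) with hB1
  set B2 : κ → Finset (Fin N) := fun σ => univ.filter (fun x => cl σ ⊆ S x) with hB2
  set big : Finset κ := univ.filter (fun σ => A ≤ (cl σ).card) with hbig
  have hW0 : (0 : ℝ) < W := by exact_mod_cast (by omega : 0 < W)
  have hA1 : (1 : ℝ) ≤ A := by exact_mod_cast hA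
  have ht0 : (0 : ℝ) ≤ t := Nat.cast_nonneg _
  have hdisj : ∀ σ σ' : κ, σ ≠ σ' → Disjoint (cl σ) (cl σ') := by
    intro σ σ' hss
    rw [Finset.disjoint_left]
    intro i hi hi'
    rw [hcl, Finset.mem_filter] at hi hi'
    rw [hi.2] at hi'
    exact hss (Option.some.inj hi'.2)
  have hclsum : ∑ σ, (cl σ).card ≤ N := by
    rw [← Finset.card_biUnion (fun σ _ σ' _ h => hdisj σ σ' h)]
    refine (Finset.card_le_univ _).trans ?_
    rw [Fintype.card_fin]
  have hP0c : P0.card ≤ K * W * (1 + A) := by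
    have h1 : (sm.biUnion cl).card ≤ K * W * A := by
      refine Finset.card_biUnion_le.trans ?_
      calc ∑ σ ∈ sm, (cl σ).card ≤ ∑ σ ∈ sm, A :=
            Finset.sum_le_sum fun σ hσ => (Finset.mem_filter.1 hσ).2.le
        _ = sm.card * A := by rw [Finset.sum_const, smul_eq_mul]
        _ ≤ K * W * A := by
            refine Nat.mul_le_mul_right _ (le_trans (Finset.card_filter_le _ _) ?_)
            rw [Finset.card_univ]
            exact hκ
    calc P0.card ≤ K * W + K * W * A :=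
          (Finset.card_union_le _ _).trans (Nat.add_le_add hnone h1)
      _ = _ := by ring
  -- decomposition of a neighbourhood
  have hdec : ∀ x, (nb x).card ≤ (P0.filter (R x)).card +
      ∑ σ ∈ Cr x, ((cl σ).filter (R x)).card +
      ∑ σ ∈ big.filter (fun σ => cl σ ⊆ S x), ((cl σ).filter (R x)).card := by
    intro x
    have hsub : nb x ⊆ (P0.filter (R x)) ∪ (Cr x).biUnion (fun σ => (cl σ).filter (R x)) ∪
        (big.filter (fun σ => cl σ ⊆ S x)).biUnion (fun σ => (cl σ).filter (R x)) := by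
      intro y hy
      have hRy : R x y := (Finset.mem_filter.1 hy).2
      have hyS : y ∈ S x := hRS x y hRy
      rw [Finset.mem_union, Finset.mem_union]
      rcases hc : c y with _ | σ
      · left; left
        rw [Finset.mem_filter, hP0, Finset.mem_union, Finset.mem_filter]
        exact ⟨Or.inl ⟨mem_univ _, hc⟩, hRy⟩
      · have hyσ : y ∈ cl σ := Finset.mem_filter.2 ⟨mem_univ _, hc⟩
        by_cases hsmall : (cl σ).card < A
        · left; left
          rw [Finset.mem_filter, hP0, Finset.mem_union, Finset.mem_biUnion]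
          exact ⟨Or.inr ⟨σ, Finset.mem_filter.2 ⟨mem_univ _, hsmall⟩, hyσ⟩, hRy⟩
        · by_cases hσ : σ ∈ Cr x
          · left; right
            rw [Finset.mem_biUnion]
            exact ⟨σ, hσ, Finset.mem_filter.2 ⟨hyσ, hRy⟩⟩
          · right
            rw [Finset.mem_biUnion]
            refine ⟨σ, ?_, Finset.mem_filter.2 ⟨hyσ, hRy⟩⟩
            rw [Finset.mem_filter]
            refine ⟨Finset.mem_filter.2 ⟨mem_univ _, not_lt.1 hsmall⟩, ?_⟩
            intro y' hy'
            by_contra hcon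
            apply hσ
            rw [hCr, Finset.mem_filter]
            exact ⟨mem_univ _, y, y', hc, (Finset.mem_filter.1 hy').2, hyS, hcon⟩
    refine (Finset.card_le_card hsub).trans ?_
    refine (Finset.card_union_le _ _).trans (Nat.add_le_add ?_ Finset.card_biUnion_le)
    exact (Finset.card_union_le _ _).trans (Nat.add_le_add le_rfl Finset.card_biUnion_le)
  -- (i)
  have hI : ((∑ x, (P0.filter (R x)).card : ℕ) : ℝ) ≤ (K : ℝ) * W * (1 + A) * n := by
    have h1 : ∑ x, (P0.filter (R x)).card = ∑ p ∈ P0, (univ.filter (fun q => R q p)).card := by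
      have e1 : ∀ x, (P0.filter (R x)).card = ∑ p ∈ P0, if R x p then 1 else 0 := by
        intro x
        rw [← Finset.sum_filter, ← Finset.card_eq_sum_ones]
      have e2 : ∀ p, (univ.filter (fun q => R q p)).card = ∑ x, if R x p then 1 else 0 := by
        intro p
        rw [← Finset.sum_filter, ← Finset.card_eq_sum_ones]
      rw [Finset.sum_congr rfl (fun x _ => e1 x), Finset.sum_congr rfl (fun p _ => e2 p),
        Finset.sum_comm]
    have h2 : ∑ x, (P0.filter (R x)).card ≤ K * W * (1 + A) * n := by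
      rw [h1]
      calc ∑ p ∈ P0, (univ.filter (fun q => R q p)).card ≤ ∑ _p ∈ P0, n :=
            Finset.sum_le_sum fun p _ => hdeg p
        _ = P0.card * n := by rw [Finset.sum_const, smul_eq_mul]
        _ ≤ _ := Nat.mul_le_mul_right _ hP0c
    exact_mod_cast h2
  -- (ii)
  have hswap1 : ∑ x, ∑ σ ∈ Cr x, ((cl σ).filter (R x)).card =
      ∑ σ, ∑ x ∈ B1 σ, ((cl σ).filter (R x)).card := by
    refine Finset.sum_comm' fun x σ => ?_
    rw [hB1]
    simp
  have hII : ((∑ x, ∑ σ ∈ Cr x, ((cl σ).filter (R x)).card : ℕ) : ℝ) ≤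
      (((N : ℝ) * T) ^ 2 * (t * (K * W * ((N : ℝ) / W) ^ 3))) ^ (1 / (3 : ℝ)) + 3 * (N * T) := by
    rw [hswap1]
    have hPs : ∑ σ, ((B1 σ).card : ℝ) ≤ N * T := by
      have h1 : ∑ σ, (B1 σ).card = ∑ x, (Cr x).card := by
        have e1 : ∀ σ, (B1 σ).card = ∑ x, if σ ∈ Cr x then 1 else 0 := by
          intro σ
          rw [← Finset.sum_filter, ← Finset.card_eq_sum_ones]
        have e2 : ∀ x, (Cr x).card = ∑ σ, if σ ∈ Cr x then 1 else 0 := by
          intro x
          rw [← Finset.sum_filter, ← Finset.card_eq_sum_ones, Finset.filter_mem_eq_inter,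
            Finset.univ_inter]
        rw [Finset.sum_congr rfl (fun σ _ => e1 σ), Finset.sum_congr rfl (fun x _ => e2 x),
          Finset.sum_comm]
      have h2 : ∑ x, (Cr x).card ≤ N * T := by
        calc ∑ x, (Cr x).card ≤ ∑ _x : Fin N, T := Finset.sum_le_sum fun x _ => hT x
          _ = N * T := by rw [Finset.sum_const, smul_eq_mul, Finset.card_univ, Fintype.card_fin]
      rw [← h1] at h2
      exact_mod_cast h2
    have hQs : ∑ σ, ((cl σ).card : ℝ) ^ 3 ≤ K * W * ((N : ℝ) / W) ^ 3 := by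
      calc ∑ σ, ((cl σ).card : ℝ) ^ 3 ≤ ∑ _σ : κ, ((N : ℝ) / W) ^ 3 := by
            refine Finset.sum_le_sum fun σ _ => pow_le_pow_left₀ (Nat.cast_nonneg _) ?_ _
            rw [le_div_iff₀ hW0]
            exact_mod_cast hcell σ
        _ = (Fintype.card κ : ℝ) * ((N : ℝ) / W) ^ 3 := by
            rw [Finset.sum_const, nsmul_eq_mul, Finset.card_univ]
        _ ≤ K * W * ((N : ℝ) / W) ^ 3 := by
            refine mul_le_mul_of_nonneg_right ?_ (by positivity)
            exact_mod_cast hκ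
    have h1 := kstF R (s := 3) (by norm_num) hfree (univ : Finset κ) cl B1 (N * T)
      (K * W * ((N : ℝ) / W) ^ 3) hPs hQs
    push_cast at h1 ⊢
    norm_num at h1 ⊢
    exact h1
  -- (iii)
  have hswap2 : ∑ x, ∑ σ ∈ big.filter (fun σ => cl σ ⊆ S x), ((cl σ).filter (R x)).card =
      ∑ σ ∈ big, ∑ x ∈ B2 σ, ((cl σ).filter (R x)).card := by
    refine Finset.sum_comm' fun x σ => ?_
    rw [hB2]
    simp [and_comm]
  set η : ℝ := (t : ℝ) ^ (1 / (3 : ℝ)) * (A : ℝ) ^ (-(1 / (3 : ℝ))) + 3 / A with hη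
  have hη0 : 0 ≤ η := by positivity
  have hone : ∀ σ ∈ big, ((∑ x ∈ B2 σ, ((cl σ).filter (R x)).card : ℕ) : ℝ) ≤
      η * ((cl σ).card * (B2 σ).card) + A * (cl σ).card := by
    intro σ hσ
    have hbg : A ≤ (cl σ).card := (Finset.mem_filter.1 hσ).2
    have hbg' : (A : ℝ) ≤ (cl σ).card := by exact_mod_cast hbg
    rcases lt_or_ge (B2 σ).card A with hlt | hge
    · have h1 : ∑ x ∈ B2 σ, ((cl σ).filter (R x)).card ≤ A * (cl σ).card := by
        calc ∑ x ∈ B2 σ, ((cl σ).filter (R x)).card ≤ ∑ _x ∈ B2 σ, (cl σ).card :=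
              Finset.sum_le_sum fun x _ => Finset.card_filter_le _ _
          _ = (B2 σ).card * (cl σ).card := by rw [Finset.sum_const, smul_eq_mul]
          _ ≤ A * (cl σ).card := Nat.mul_le_mul_right _ hlt.le
      have h2 : 0 ≤ η * ((cl σ).card * (B2 σ).card) := by positivity
      have h3 : ((∑ x ∈ B2 σ, ((cl σ).filter (R x)).card : ℕ) : ℝ) ≤ A * (cl σ).card := by
        exact_mod_cast h1
      linarith
    · have h1 := kstF R (s := 3) (by norm_num) hfree (κ := Unit) {()} (fun _ => cl σ)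
        (fun _ => B2 σ) (B2 σ).card (((cl σ).card : ℝ) ^ 3) (by simp) (by simp)
      rw [Finset.sum_singleton] at h1
      have h2 := full_aux (a := (cl σ).card) (b := (B2 σ).card) (t := t) (A := A)
        (e := ((∑ x ∈ B2 σ, ((cl σ).filter (R x)).card : ℕ) : ℝ)) hA1 hbg'
        (by exact_mod_cast hge) ht0 (by
          push_cast at h1 ⊢
          norm_num at h1 ⊢
          exact h1)
      have h3 : (0 : ℝ) ≤ A * (cl σ).card := by positivity
      linarith
  have hIII : ((∑ x, ∑ σ ∈ big.filter (fun σ => cl σ ⊆ S x), ((cl σ).filter (R x)).card : ℕ) : ℝ) ≤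
      η * (N * (D1 * n)) + A * N := by
    rw [hswap2]
    have h1 : ((∑ σ ∈ big, ∑ x ∈ B2 σ, ((cl σ).filter (R x)).card : ℕ) : ℝ) ≤
        ∑ σ ∈ big, (η * ((cl σ).card * (B2 σ).card) + A * (cl σ).card) := by
      rw [Nat.cast_sum]
      exact Finset.sum_le_sum hone
    refine h1.trans ?_
    rw [Finset.sum_add_distrib, ← Finset.mul_sum, ← Finset.mul_sum]
    refine add_le_add (mul_le_mul_of_nonneg_left ?_ hη0) (mul_le_mul_of_nonneg_left ?_ (by positivity))
    · have h2 : ∑ σ ∈ big, (cl σ).card * (B2 σ).card ≤ N * (D1 * n) := by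
        have h3 : ∑ σ ∈ big, (cl σ).card * (B2 σ).card =
            ∑ x, ∑ σ ∈ big.filter (fun σ => cl σ ⊆ S x), (cl σ).card := by
          have h4 : ∑ x, ∑ σ ∈ big.filter (fun σ => cl σ ⊆ S x), (cl σ).card =
              ∑ σ ∈ big, ∑ x ∈ B2 σ, (cl σ).card := by
            refine Finset.sum_comm' fun x σ => ?_
            rw [hB2]
            simp [and_comm]
          rw [h4]
          refine Finset.sum_congr rfl fun σ _ => ?_
          rw [Finset.sum_const, smul_eq_mul, Nat.mul_comm]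
        rw [h3]
        calc ∑ x, ∑ σ ∈ big.filter (fun σ => cl σ ⊆ S x), (cl σ).card ≤ ∑ _x : Fin N, D1 * n := by
              refine Finset.sum_le_sum fun x _ => ?_
              rw [← Finset.card_biUnion (fun σ _ σ' _ h => hdisj σ σ' h)]
              refine (Finset.card_le_card ?_).trans (hSc x)
              intro i hi
              rw [Finset.mem_biUnion] at hi
              obtain ⟨σ, hσ, hi⟩ := hi
              exact (Finset.mem_filter.1 hσ).2 hi
          _ = N * (D1 * n) := by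
              rw [Finset.sum_const, smul_eq_mul, Finset.card_univ, Fintype.card_fin]
      exact_mod_cast h2
    · have h2 : ∑ σ ∈ big, (cl σ).card ≤ N :=
        (Finset.sum_le_sum_of_subset (Finset.subset_univ _)).trans hclsum
      exact_mod_cast h2
  have htot : ((∑ q, (univ.filter (R q)).card : ℕ) : ℝ) ≤
      ((∑ x, (P0.filter (R x)).card : ℕ) : ℝ) +
      ((∑ x, ∑ σ ∈ Cr x, ((cl σ).filter (R x)).card : ℕ) : ℝ) +
      ((∑ x, ∑ σ ∈ big.filter (fun σ => cl σ ⊆ S x), ((cl σ).filter (R x)).card : ℕ) : ℝ) := by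
    have h1 : ∑ q, (nb q).card ≤ ∑ x, (P0.filter (R x)).card +
        ∑ x, ∑ σ ∈ Cr x, ((cl σ).filter (R x)).card +
        ∑ x, ∑ σ ∈ big.filter (fun σ => cl σ ⊆ S x), ((cl σ).filter (R x)).card := by
      rw [← Finset.sum_add_distrib, ← Finset.sum_add_distrib]
      exact Finset.sum_le_sum fun x _ => hdec x
    exact_mod_cast h1
  refine htot.trans ?_
  exact add_le_add (add_le_add hI hII) hIII

end Pool.Agent.U671.LC
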