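import Pool.Agent.U671.LC.Elim

/-!
Links on curves, part 2: the projection of the fibre product of two plane algebraic curves lies on
a plane algebraic curve.
-/

set_option autoImplicit false

namespace Pool.Agent.U671.LC

open Finset Polynomial

/-- the exponent vector `(i, j)` -/
noncomputable def ex (i j : ℕ) : Fin 2 →₀ ℕ := Finsupp.single 0 i + Finsupp.single 1 j

@[simp] theorem ex_zero (i j : ℕ) : ex i j 0 = i := by
  simp [ex]

@[simp] theorem ex_one (i j : ℕ) : ex i j 1 = j := by
  simp [ex]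

theorem ex_self (m : Fin 2 →₀ ℕ) : ex (m 0) (m 1) = m := by
  ext i
  fin_cases i <;> simp

theorem ex_inj {i j i' j' : ℕ} (h : ex i j = ex i' j') : i = i' ∧ j = j' := by
  constructor
  · have := congrArg (fun m : Fin 2 →₀ ℕ => m 0) h
    simpa using this
  · have := congrArg (fun m : Fin 2 →₀ ℕ => m 1) h
    simpa using this

/-- the coefficient of `y ^ i`, a polynomial in `z` -/
noncomputable def cf (D : ℕ) (P : MvPolynomial (Fin 2) ℝ) (i : ℕ) : ℝ[X] :=
  ∑ j ∈ range (D + 1), C (P.coeff (ex i j)) * X ^ j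

theorem cf_deg (D : ℕ) (P : MvPolynomial (Fin 2) ℝ) (i : ℕ) : (cf D P i).natDegree ≤ D := by
  unfold cf
  refine natDegree_sum_le_of_forall_le _ _ fun j hj => ?_
  refine (natDegree_C_mul_X_pow_le _ _).trans ?_
  have := Finset.mem_range.1 hj
  omega

theorem cf_eval (D : ℕ) (P : MvPolynomial (Fin 2) ℝ) (hP : P.totalDegree ≤ D) (y z : ℝ) :
    MvPolynomial.eval ![y, z] P = ∑ i ∈ range (D + 1), (cf D P i).eval z * y ^ i := by
  classical
  rw [MvPolynomial.eval_eq']
  set I : Finset (Fin 2 →₀ ℕ) := (range (D + 1) ×ˢ range (D + 1)).image (fun p => ex p.1 p.2)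
    with hI
  have h1 : ∀ m ∈ P.support, m ∈ I := by
    intro m hm
    rw [hI, Finset.mem_image]
    have h2 : (m.sum fun _ e => e) ≤ D := (MvPolynomial.le_totalDegree hm).trans hP
    have h3 : m 0 + m 1 ≤ D := by
      rw [Finsupp.sum_fintype _ _ (fun _ => rfl)] at h2
      simpa [Fin.sum_univ_two] using h2
    refine ⟨(m 0, m 1), ?_, ex_self m⟩
    rw [Finset.mem_product, Finset.mem_range, Finset.mem_range]
    constructor
    · show m 0 < D + 1
      omega
    · show m 1 < D + 1
      omega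
  rw [Finset.sum_subset h1 (fun m _ hm => by
    rw [MvPolynomial.notMem_support_iff.1 hm, zero_mul])]
  rw [hI, Finset.sum_image (by
    rintro ⟨i, j⟩ _ ⟨i', j'⟩ _ h
    exact Prod.ext (ex_inj h).1 (ex_inj h).2)]
  rw [Finset.sum_product]
  refine Finset.sum_congr rfl fun i _ => ?_
  unfold cf
  rw [eval_finsetSum, Finset.sum_mul]
  refine Finset.sum_congr rfl fun j _ => ?_
  rw [Fin.prod_univ_two]
  simp only [ex_zero, ex_one, Matrix.cons_val_zero, Matrix.cons_val_one, eval_mul, eval_C,
    eval_pow, eval_X]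
  ring

theorem cf_ne (D : ℕ) (P : MvPolynomial (Fin 2) ℝ) (hP : P.totalDegree ≤ D) (h0 : P ≠ 0) :
    ∃ i ≤ D, cf D P i ≠ 0 := by
  by_contra hcon
  push Not at hcon
  apply h0
  apply MvPolynomial.funext
  intro x
  have h1 : x = ![x 0, x 1] := by
    ext i
    fin_cases i <;> rfl
  rw [h1, cf_eval D P hP, map_zero]
  refine Finset.sum_eq_zero fun i hi => ?_
  rw [hcon i (by have := Finset.mem_range.1 hi; omega), eval_zero, zero_mul]

open Classical in
/-- the degree in `y` -/
noncomputable def dg (D : ℕ) (P : MvPolynomial (Fin 2) ℝ) : ℕ :=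
  Nat.findGreatest (fun i => cf D P i ≠ 0) D

theorem dg_le (D : ℕ) (P : MvPolynomial (Fin 2) ℝ) : dg D P ≤ D := Nat.findGreatest_le _

theorem dg_ne (D : ℕ) (P : MvPolynomial (Fin 2) ℝ) (hP : P.totalDegree ≤ D) (h0 : P ≠ 0) :
    cf D P (dg D P) ≠ 0 := by
  classical
  obtain ⟨i, hi, h⟩ := cf_ne D P hP h0
  unfold dg
  exact Nat.findGreatest_spec (P := fun i => cf D P i ≠ 0) hi h

theorem eval_dg (D : ℕ) (P : MvPolynomial (Fin 2) ℝ) (hP : P.totalDegree ≤ D) (y z : ℝ) :
    MvPolynomial.eval ![y, z] P = ∑ i ∈ range (dg D P + 1), (cf D P i).eval z * y ^ i := by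
  classical
  rw [cf_eval D P hP]
  symm
  apply Finset.sum_subset
  · intro i hi
    have := Finset.mem_range.1 hi
    have := dg_le D P
    rw [Finset.mem_range]
    omega
  · intro i hi hi'
    rw [Finset.mem_range] at hi hi'
    have h1 : ¬ (cf D P i ≠ 0) := by
      refine Nat.findGreatest_is_greatest (P := fun i => cf D P i ≠ 0) (n := D) (k := i) ?_ ?_
      · have : dg D P = Nat.findGreatest (fun i => cf D P i ≠ 0) D := by
          unfold dg
          rfl
        rw [← this]
        omega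
      · omega
    rw [not_not] at h1
    rw [h1, eval_zero, zero_mul]

/-- the roots of the leading coefficient -/
noncomputable def bad (D : ℕ) (P : MvPolynomial (Fin 2) ℝ) : Finset ℝ :=
  (cf D P (dg D P)).roots.toFinset

theorem bad_card (D : ℕ) (P : MvPolynomial (Fin 2) ℝ) : (bad D P).card ≤ D := by
  refine (Multiset.toFinset_card_le _).trans ((card_roots' _).trans (cf_deg D P _))

theorem not_bad (D : ℕ) (P : MvPolynomial (Fin 2) ℝ) (hP : P.totalDegree ≤ D) (h0 : P ≠ 0) {z : ℝ}
    (hz : z ∉ bad D P) : (cf D P (dg D P)).eval z ≠ 0 := by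
  intro h
  apply hz
  unfold bad
  rw [Multiset.mem_toFinset, mem_roots (dg_ne D P hP h0)]
  exact h

/-- The points `(y, y')` such that the curves `P`, `Q` contain `(y, z)`, `(y', z)` for some `z` which
is not bad lie on an algebraic curve of bounded degree. -/
theorem curve (D : ℕ) (hD : 1 ≤ D) (P Q : MvPolynomial (Fin 2) ℝ) (hP : P.totalDegree ≤ D)
    (hQ : Q.totalDegree ≤ D) (hP0 : P ≠ 0) (hQ0 : Q ≠ 0) :
    ∃ R : MvPolynomial (Fin 2) ℝ, R ≠ 0 ∧ R.totalDegree ≤ 6 * D ^ 3 ∧ ∀ y y' z : ℝ,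
      MvPolynomial.eval ![y, z] P = 0 → MvPolynomial.eval ![y', z] Q = 0 →
      z ∉ bad D P → z ∉ bad D Q → MvPolynomial.eval ![y, y'] R = 0 := by
  classical
  set m : ℕ := 2 * D ^ 3 + 1 with hm
  have h1 : D ^ 2 * (2 * D * m + 1) < m ^ 2 := by
    have h2 : D ^ 2 < m := by
      have : D ^ 2 ≤ D ^ 3 := Nat.pow_le_pow_right hD (by norm_num)
      omega
    calc D ^ 2 * (2 * D * m + 1) = 2 * D ^ 3 * m + D ^ 2 := by ring
      _ < 2 * D ^ 3 * m + m := by omega
      _ = m ^ 2 := by rw [hm]; ring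
  obtain ⟨r, ⟨a0, b0, hr⟩, h⟩ := elim (dg D P) (dg D Q) D m (dg_le D P) (dg_le D Q) h1 (cf D P)
    (cf D Q) (cf_deg D P) (cf_deg D Q)
  set R : MvPolynomial (Fin 2) ℝ := ∑ a : Fin m, ∑ b : Fin m,
    MvPolynomial.monomial (ex a b) (r a b) with hR
  have hcoeff : R.coeff (ex a0 b0) = r a0 b0 := by
    rw [hR, MvPolynomial.coeff_sum, Finset.sum_eq_single a0, MvPolynomial.coeff_sum,
      Finset.sum_eq_single b0, MvPolynomial.coeff_monomial, if_pos rfl]
    · intro b _ hb
      rw [MvPolynomial.coeff_monomial, if_neg]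
      intro h2
      exact hb (Fin.ext (ex_inj h2).2)
    · intro h2; exact absurd (mem_univ _) h2
    · intro a _ ha
      rw [MvPolynomial.coeff_sum]
      refine Finset.sum_eq_zero fun b _ => ?_
      rw [MvPolynomial.coeff_monomial, if_neg]
      intro h2
      exact ha (Fin.ext (ex_inj h2).1)
    · intro h2; exact absurd (mem_univ _) h2
  refine ⟨R, ?_, ?_, ?_⟩
  · intro h0
    rw [h0, MvPolynomial.coeff_zero] at hcoeff
    exact hr hcoeff.symm
  · rw [hR]
    refine MvPolynomial.totalDegree_finsetSum_le fun a _ =>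
      MvPolynomial.totalDegree_finsetSum_le fun b _ => ?_
    refine (MvPolynomial.totalDegree_monomial_le _ _).trans ?_
    rw [Finsupp.sum_fintype _ _ (fun _ => rfl), Fin.sum_univ_two, ex_zero, ex_one]
    have h2 := a.2
    have h3 := b.2
    have h4 : 1 ≤ D ^ 3 := Nat.one_le_pow _ _ hD
    show (a : ℕ) + (b : ℕ) ≤ 6 * D ^ 3
    omega
  · intro y y' z e1 e2 e3 e4
    rw [eval_dg D P hP] at e1
    rw [eval_dg D Q hQ] at e2
    have h2 := h y y' z e1 e2 (not_bad D P hP hP0 e3) (not_bad D Q hQ hQ0 e4)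
    rw [← h2, hR]
    rw [map_sum]
    refine Finset.sum_congr rfl fun a _ => ?_
    rw [map_sum]
    refine Finset.sum_congr rfl fun b _ => ?_
    rw [MvPolynomial.eval_monomial, Finsupp.prod_fintype _ _ (fun _ => pow_zero _),
      Fin.prod_univ_two, ex_zero, ex_one]
    simp only [Matrix.cons_val_zero, Matrix.cons_val_one]
    ring

/-- A nonzero polynomial of degree at most `E` vanishes at at most `E |Y|` points of a grid
`Y × Y`. -/
theorem zeros {n E : ℕ} (u : Fin n → ℝ) (hu : Function.Injective u) (R : MvPolynomial (Fin 2) ℝ)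
    (h0 : R ≠ 0) (hE : R.totalDegree ≤ E) :
    ((univ : Finset (Fin n × Fin n)).filter
      (fun p => MvPolynomial.eval ![u p.1, u p.2] R = 0)).card ≤ E * n := by
  classical
  rcases Nat.eq_zero_or_pos n with hn | hn
  · subst hn
    simp
  set S : Finset ℝ := univ.image u with hS
  have hSc : S.card = n := by
    rw [hS, Finset.card_image_of_injective _ hu, Finset.card_univ, Fintype.card_fin]
  have h1 := MvPolynomial.schwartz_zippel_totalDegree h0 S
  rw [hSc] at h1
  have hn0 : (0 : ℚ≥0) < n := by exact_mod_cast hn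
  rw [div_le_div_iff₀ (by positivity) hn0] at h1
  have h2 : (((Fintype.piFinset fun _ : Fin 2 => S).filter
      (fun f => MvPolynomial.eval f R = 0)).card) * n ≤ R.totalDegree * n ^ 2 := by
    exact_mod_cast h1
  have h3 : ((Fintype.piFinset fun _ : Fin 2 => S).filter
      (fun f => MvPolynomial.eval f R = 0)).card ≤ E * n := by
    have h4 : R.totalDegree * n ^ 2 = (R.totalDegree * n) * n := by ring
    rw [h4] at h2
    exact (Nat.le_of_mul_le_mul_right h2 hn).trans (Nat.mul_le_mul_right _ hE)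
  refine le_trans ?_ h3
  refine Finset.card_le_card_of_injOn (fun p => ![u p.1, u p.2]) ?_ ?_
  · intro p hp
    have hp' := (Finset.mem_filter.1 (Finset.mem_coe.1 hp)).2
    refine Finset.mem_coe.2 (Finset.mem_filter.2 ⟨?_, hp'⟩)
    rw [Fintype.mem_piFinset]
    intro i
    fin_cases i
    · exact Finset.mem_image_of_mem _ (mem_univ _)
    · exact Finset.mem_image_of_mem _ (mem_univ _)
  · intro p _ q _ hpq
    have e1 : u p.1 = u q.1 := by
      have := congrFun hpq 0
      simpa using this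
    have e2 : u p.2 = u q.2 := by
      have := congrFun hpq 1
      simpa using this
    exact Prod.ext (hu e1) (hu e2)

end Pool.Agent.U671.LC
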