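import Mathlib

/-!
Links on curves, part 1: elimination of one variable by linear algebra.
-/

set_option autoImplicit false

namespace Pool.Agent.U671.LC

open Finset Polynomial

/-- Reduction of `y ^ a` modulo a polynomial in `y` with coefficients depending on `z`. -/
theorem reduce (e D : ℕ) (p : ℕ → ℝ[X]) (hp : ∀ i, (p i).natDegree ≤ D) (a : ℕ) :
    ∃ α : ℕ → ℝ[X], (∀ i, (α i).natDegree ≤ D * a) ∧ ∀ y z : ℝ,
      (∑ i ∈ range (e + 2), (p i).eval z * y ^ i = 0) →
      ((p (e + 1)).eval z) ^ a * y ^ a = ∑ i ∈ range (e + 1), (α i).eval z * y ^ i := by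
  induction a with
  | zero =>
    refine ⟨fun i => if i = 0 then 1 else 0, ?_, ?_⟩
    · intro i
      by_cases h : i = 0 <;> simp [h]
    · intro y z _
      rw [Finset.sum_range_succ']
      simp
  | succ a ih =>
    obtain ⟨α, hα, h⟩ := ih
    refine ⟨fun i => (if i = 0 then 0 else p (e + 1) * α (i - 1)) - α e * p i, ?_, ?_⟩
    · intro i
      refine (natDegree_sub_le _ _).trans (max_le ?_ ?_)
      · by_cases h0 : i = 0
        · simp [h0]
        · rw [if_neg h0]
          refine natDegree_mul_le.trans ?_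
          have h1 := hp (e + 1)
          have h2 := hα (i - 1)
          rw [Nat.mul_succ]
          omega
      · refine natDegree_mul_le.trans ?_
        have h1 := hp i
        have h2 := hα e
        rw [Nat.mul_succ]
        omega
    · intro y z hz
      have h1 := h y z hz
      have h2 : (p (e + 1)).eval z * y ^ (e + 1) = - ∑ i ∈ range (e + 1), (p i).eval z * y ^ i := by
        rw [Finset.sum_range_succ] at hz
        linarith
      have h3 : ((p (e + 1)).eval z) ^ (a + 1) * y ^ (a + 1) =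
          ((p (e + 1)).eval z * y) * ∑ i ∈ range (e + 1), (α i).eval z * y ^ i := by
        rw [← h1]; ring
      rw [h3]
      simp only [eval_sub, eval_mul, sub_mul]
      rw [Finset.sum_sub_distrib]
      have h4 : ∑ i ∈ range (e + 1), (eval z (if i = 0 then 0 else p (e + 1) * α (i - 1))) * y ^ i =
          ∑ i ∈ range e, (p (e + 1)).eval z * (α i).eval z * y ^ (i + 1) := by
        rw [Finset.sum_range_succ']
        simp
      rw [h4, Finset.mul_sum, Finset.sum_range_succ]
      have h5 : ∑ i ∈ range (e + 1), (α e).eval z * (p i).eval z * y ^ i =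
          (α e).eval z * ∑ i ∈ range (e + 1), (p i).eval z * y ^ i := by
        rw [Finset.mul_sum]
        refine Finset.sum_congr rfl fun i _ => by ring
      rw [h5]
      have h6 : (p (e + 1)).eval z * y * ((α e).eval z * y ^ e) =
          (α e).eval z * ((p (e + 1)).eval z * y ^ (e + 1)) := by ring
      rw [h6, h2]
      have h7 : ∀ i ∈ range e, (p (e + 1)).eval z * y * ((α i).eval z * y ^ i) =
          (p (e + 1)).eval z * (α i).eval z * y ^ (i + 1) := fun i _ => by ring
      rw [Finset.sum_congr rfl h7]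
      ring

/-- The same with a fixed power of the leading coefficient. -/
theorem reduceM (e D m : ℕ) (p : ℕ → ℝ[X]) (hp : ∀ i, (p i).natDegree ≤ D) (a : ℕ) (ha : a ≤ m) :
    ∃ α : ℕ → ℝ[X], (∀ i, (α i).natDegree ≤ D * m) ∧ ∀ y z : ℝ,
      (∑ i ∈ range (e + 2), (p i).eval z * y ^ i = 0) →
      ((p (e + 1)).eval z) ^ m * y ^ a = ∑ i ∈ range (e + 1), (α i).eval z * y ^ i := by
  obtain ⟨α, hα, h⟩ := reduce e D p hp a
  obtain ⟨k, rfl⟩ := Nat.exists_eq_add_of_le ha
  refine ⟨fun i => p (e + 1) ^ k * α i, ?_, ?_⟩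
  · intro i
    refine natDegree_mul_le.trans ?_
    have h1 : (p (e + 1) ^ k).natDegree ≤ k * D := natDegree_pow_le_of_le k (hp _)
    have h2 := hα i
    calc (p (e + 1) ^ k).natDegree + (α i).natDegree ≤ k * D + D * a := Nat.add_le_add h1 h2
      _ = D * (a + k) := by ring
  · intro y z hz
    have h1 := h y z hz
    have h2 : ((p (e + 1)).eval z) ^ (a + k) * y ^ a =
        ((p (e + 1)).eval z) ^ k * (((p (e + 1)).eval z) ^ a * y ^ a) := by ring
    rw [h2, h1, Finset.mul_sum]
    refine Finset.sum_congr rfl fun i _ => ?_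
    rw [eval_mul, eval_pow]
    ring

/-- Elimination of `z` from two equations, for the points where the leading coefficients do not
vanish. -/
theorem elim (d e D m : ℕ) (hd : d ≤ D) (he : e ≤ D) (hm : D ^ 2 * (2 * D * m + 1) < m ^ 2)
    (p q : ℕ → ℝ[X]) (hp : ∀ i, (p i).natDegree ≤ D) (hq : ∀ i, (q i).natDegree ≤ D) :
    ∃ r : Fin m → Fin m → ℝ, (∃ a b, r a b ≠ 0) ∧ ∀ y y' z : ℝ,
      (∑ i ∈ range (d + 1), (p i).eval z * y ^ i = 0) →
      (∑ i ∈ range (e + 1), (q i).eval z * y' ^ i = 0) →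
      (p d).eval z ≠ 0 → (q e).eval z ≠ 0 →
      ∑ a, ∑ b, r a b * y ^ (a : ℕ) * y' ^ (b : ℕ) = 0 := by
  have hm0 : 0 < m := by
    rcases Nat.eq_zero_or_pos m with h | h
    · rw [h] at hm; simp at hm
    · exact h
  rcases Nat.eq_zero_or_pos d with hd0 | hd0
  · subst hd0
    refine ⟨fun _ _ => 1, ⟨⟨0, hm0⟩, ⟨0, hm0⟩, one_ne_zero⟩, ?_⟩
    intro y y' z h1 _ h2 _
    simp at h1
    exact absurd h1 h2
  rcases Nat.eq_zero_or_pos e with he0 | he0
  · subst he0
    refine ⟨fun _ _ => 1, ⟨⟨0, hm0⟩, ⟨0, hm0⟩, one_ne_zero⟩, ?_⟩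
    intro y y' z _ h1 _ h2
    simp at h1
    exact absurd h1 h2
  obtain ⟨d, rfl⟩ : ∃ k, d = k + 1 := ⟨d - 1, by omega⟩
  obtain ⟨e, rfl⟩ : ∃ k, e = k + 1 := ⟨e - 1, by omega⟩
  have hA : ∀ a : Fin m, ∃ α : ℕ → ℝ[X], (∀ i, (α i).natDegree ≤ D * m) ∧ ∀ y z : ℝ,
      (∑ i ∈ range (d + 2), (p i).eval z * y ^ i = 0) →
      ((p (d + 1)).eval z) ^ m * y ^ (a : ℕ) = ∑ i ∈ range (d + 1), (α i).eval z * y ^ i :=
    fun a => reduceM d D m p hp a a.2.le
  have hB : ∀ a : Fin m, ∃ α : ℕ → ℝ[X], (∀ i, (α i).natDegree ≤ D * m) ∧ ∀ y z : ℝ,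
      (∑ i ∈ range (e + 2), (q i).eval z * y ^ i = 0) →
      ((q (e + 1)).eval z) ^ m * y ^ (a : ℕ) = ∑ i ∈ range (e + 1), (α i).eval z * y ^ i :=
    fun a => reduceM e D m q hq a a.2.le
  choose A hA1 hA2 using hA
  choose B hB1 hB2 using hB
  set v : Fin m × Fin m → (Fin (d + 1) × Fin (e + 1) × Fin (2 * D * m + 1) → ℝ) :=
    fun ab i => (A ab.1 i.1 * B ab.2 i.2.1).coeff i.2.2 with hv
  have hdep : ¬ LinearIndependent ℝ v := by
    intro hli
    have h1 := hli.fintype_card_le_finrank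
    rw [Module.finrank_fintype_fun_eq_card, Fintype.card_prod, Fintype.card_fin, Fintype.card_prod,
      Fintype.card_fin, Fintype.card_prod, Fintype.card_fin, Fintype.card_fin] at h1
    have h2 : (d + 1) * ((e + 1) * (2 * D * m + 1)) ≤ D ^ 2 * (2 * D * m + 1) := by
      rw [← mul_assoc, pow_two]
      exact Nat.mul_le_mul_right _ (Nat.mul_le_mul hd he)
    have h3 : m * m = m ^ 2 := by ring
    omega
  rw [Fintype.not_linearIndependent_iff] at hdep
  obtain ⟨g, hg, ⟨ab, hab⟩⟩ := hdep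
  refine ⟨fun a b => g (a, b), ⟨ab.1, ab.2, hab⟩, ?_⟩
  intro y y' z h1 h2 h3 h4
  have key : ∀ (i : Fin (d + 1)) (j : Fin (e + 1)),
      ∑ ab : Fin m × Fin m, C (g ab) * (A ab.1 i * B ab.2 j) = 0 := by
    intro i j
    ext l
    rw [finset_sum_coeff, coeff_zero]
    by_cases hl : l < 2 * D * m + 1
    · have h5 := congrFun hg (i, j, ⟨l, hl⟩)
      simp only [Finset.sum_apply, Pi.smul_apply, smul_eq_mul, Pi.zero_apply, hv] at h5
      rw [← h5]
      refine Finset.sum_congr rfl fun ab _ => ?_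
      rw [coeff_C_mul]
    · refine Finset.sum_eq_zero fun ab _ => ?_
      rw [coeff_C_mul, coeff_eq_zero_of_natDegree_lt, mul_zero]
      refine lt_of_le_of_lt natDegree_mul_le ?_
      have h5 := hA1 ab.1 i
      have h6 := hB1 ab.2 j
      have h7 : 2 * D * m = D * m + D * m := by ring
      omega
  have hne : ((p (d + 1)).eval z) ^ m * ((q (e + 1)).eval z) ^ m ≠ 0 :=
    mul_ne_zero (pow_ne_zero _ h3) (pow_ne_zero _ h4)
  apply mul_left_cancel₀ hne
  rw [mul_zero, Finset.mul_sum]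
  calc ∑ a : Fin m, ((p (d + 1)).eval z) ^ m * ((q (e + 1)).eval z) ^ m *
        ∑ b : Fin m, g (a, b) * y ^ (a : ℕ) * y' ^ (b : ℕ)
      = ∑ a : Fin m, ∑ b : Fin m, g (a, b) * ((((p (d + 1)).eval z) ^ m * y ^ (a : ℕ)) *
          (((q (e + 1)).eval z) ^ m * y' ^ (b : ℕ))) := by
        refine Finset.sum_congr rfl fun a _ => ?_
        rw [Finset.mul_sum]
        refine Finset.sum_congr rfl fun b _ => by ring
    _ = ∑ a : Fin m, ∑ b : Fin m, g (a, b) * ((∑ i ∈ range (d + 1), (A a i).eval z * y ^ i) *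
          (∑ j ∈ range (e + 1), (B b j).eval z * y' ^ j)) := by
        refine Finset.sum_congr rfl fun a _ => Finset.sum_congr rfl fun b _ => ?_
        rw [hA2 a y z h1, hB2 b y' z h2]
    _ = ∑ a : Fin m, ∑ b : Fin m, ∑ i : Fin (d + 1), ∑ j : Fin (e + 1),
          (C (g (a, b)) * (A a i * B b j)).eval z * (y ^ (i : ℕ) * y' ^ (j : ℕ)) := by
        refine Finset.sum_congr rfl fun a _ => Finset.sum_congr rfl fun b _ => ?_
        rw [Finset.sum_mul_sum, Finset.mul_sum, ← Fin.sum_univ_eq_sum_range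
          (fun i => g (a, b) * ∑ j ∈ range (e + 1), eval z (A a i) * y ^ i *
            (eval z (B b j) * y' ^ j))]
        refine Finset.sum_congr rfl fun i _ => ?_
        rw [Finset.mul_sum, ← Fin.sum_univ_eq_sum_range
          (fun j => g (a, b) * (eval z (A a i) * y ^ (i : ℕ) * (eval z (B b j) * y' ^ j)))]
        refine Finset.sum_congr rfl fun j _ => ?_
        rw [eval_mul, eval_C, eval_mul]
        ring
    _ = ∑ i : Fin (d + 1), ∑ j : Fin (e + 1),
          (∑ ab : Fin m × Fin m, C (g ab) * (A ab.1 i * B ab.2 j)).eval z *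
            (y ^ (i : ℕ) * y' ^ (j : ℕ)) := by
        rw [← Fintype.sum_prod_type', Finset.sum_comm]
        refine Finset.sum_congr rfl fun i _ => ?_
        rw [Finset.sum_comm]
        refine Finset.sum_congr rfl fun j _ => ?_
        rw [eval_finset_sum, Finset.sum_mul]
    _ = 0 := by
        refine Finset.sum_eq_zero fun i _ => Finset.sum_eq_zero fun j _ => ?_
        rw [key, eval_zero, zero_mul]

end Pool.Agent.U671.LC
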