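import Mathlib

/-!
Links on curves, part 4: linear subsystems and the two-level grid.
-/

set_option autoImplicit false

namespace Pool.Agent.U671.LC

open Finset

open scoped Classical

/-- Greedy independent sets. -/
theorem indep {α : Type} (r : α → α → Prop) (hr : ∀ a b, r a b → r b a) (d : ℕ) (A : Finset α)
    (h : ∀ a ∈ A, ∀ B ⊆ A, (∀ b ∈ B, b ≠ a ∧ r a b) → B.card ≤ d) :
    ∃ T ⊆ A, A.card ≤ (d + 1) * T.card ∧ ∀ a ∈ T, ∀ b ∈ T, a ≠ b → ¬ r a b := by
  set F : Finset (Finset α) := A.powerset.filter (fun T => ∀ a ∈ T, ∀ b ∈ T, a ≠ b → ¬ r a b) with hF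
  have hne : F.Nonempty := ⟨∅, by
    rw [hF, Finset.mem_filter]
    exact ⟨Finset.empty_mem_powerset _, by simp⟩⟩
  obtain ⟨T, hT, hmax⟩ := Finset.exists_max_image F Finset.card hne
  rw [hF, Finset.mem_filter, Finset.mem_powerset] at hT
  refine ⟨T, hT.1, ?_, hT.2⟩
  have hcov : A ⊆ T.biUnion (fun t => insert t (A.filter (fun b => b ≠ t ∧ r t b))) := by
    intro a ha
    by_contra hcon
    rw [Finset.mem_biUnion] at hcon
    push Not at hcon
    have haT : a ∉ T := fun h1 => hcon a h1 (Finset.mem_insert_self _ _)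
    have hno : ∀ t ∈ T, ¬ r t a := by
      intro t ht htr
      apply hcon t ht
      rw [Finset.mem_insert, Finset.mem_filter]
      right
      exact ⟨ha, fun h1 => haT (h1 ▸ ht), htr⟩
    have h1 : insert a T ∈ F := by
      rw [hF, Finset.mem_filter, Finset.mem_powerset]
      refine ⟨Finset.insert_subset ha hT.1, ?_⟩
      intro b hb c hc hbc
      rw [Finset.mem_insert] at hb hc
      rcases hb with rfl | hb <;> rcases hc with rfl | hc
      · exact absurd rfl hbc
      · intro h2; exact hno c hc (hr _ _ h2)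
      · exact hno b hb
      · exact hT.2 b hb c hc hbc
    have h2 := hmax _ h1
    rw [Finset.card_insert_of_notMem haT] at h2
    omega
  calc A.card ≤ ∑ t ∈ T, (insert t (A.filter (fun b => b ≠ t ∧ r t b))).card :=
        (Finset.card_le_card hcov).trans Finset.card_biUnion_le
    _ ≤ ∑ _t ∈ T, (d + 1) := by
        refine Finset.sum_le_sum fun t ht => ?_
        exact (Finset.card_insert_le _ _).trans (Nat.succ_le_succ (h t (hT.1 ht) _
          (Finset.filter_subset _ _) (fun b hb => (Finset.mem_filter.1 hb).2)))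
    _ = (d + 1) * T.card := by rw [Finset.sum_const, smul_eq_mul, Nat.mul_comm]

variable {n e : ℕ}

/-- no `e` edges on at most `e + 3` vertices -/
def Free (e : ℕ) {n : ℕ} (H : Finset (Finset (Fin n))) : Prop :=
  ∀ U : Finset (Fin n), U.card ≤ e + 3 → (H.filter (fun A => A ⊆ U)).card < e

/-- two members with two common elements are equal -/
def Linear {n : ℕ} (H : Finset (Finset (Fin n))) : Prop :=
  ∀ A ∈ H, ∀ B ∈ H, ∀ a b, a ≠ b → a ∈ A → b ∈ A → a ∈ B → b ∈ B → A = B

theorem pair_le (H : Finset (Finset (Fin n))) (h3 : ∀ A ∈ H, A.card = 3) (hfree : Free e H)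
    {a b : Fin n} (hab : a ≠ b) : (H.filter (fun A => a ∈ A ∧ b ∈ A)).card ≤ e := by
  by_contra hcon
  push Not at hcon
  obtain ⟨F, hF, hFc⟩ := Finset.exists_subset_card_eq hcon.le
  have hmem : ∀ A ∈ F, A ∈ H ∧ a ∈ A ∧ b ∈ A := fun A hA => Finset.mem_filter.1 (hF hA)
  set U : Finset (Fin n) := {a, b} ∪ F.biUnion (fun A => A \ {a, b}) with hU
  have hUc : U.card ≤ e + 3 := by
    have h1 : (F.biUnion (fun A => A \ {a, b})).card ≤ e := by
      refine Finset.card_biUnion_le.trans ?_
      calc ∑ A ∈ F, (A \ {a, b}).card ≤ ∑ _A ∈ F, 1 := by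
            refine Finset.sum_le_sum fun A hA => ?_
            obtain ⟨h4, h5, h6⟩ := hmem A hA
            rw [Finset.card_sdiff_of_subset (by
              intro x hx
              rw [Finset.mem_insert, Finset.mem_singleton] at hx
              rcases hx with rfl | rfl
              · exact h5
              · exact h6), h3 A h4, Finset.card_pair hab]
        _ = e := by rw [← Finset.card_eq_sum_ones, hFc]
    have h2 := Finset.card_union_le ({a, b} : Finset (Fin n)) (F.biUnion (fun A => A \ {a, b}))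
    rw [Finset.card_pair hab, ← hU] at h2
    omega
  have h4 := hfree U hUc
  have h5 : F ⊆ H.filter (fun A => A ⊆ U) := by
    intro A hA
    rw [Finset.mem_filter]
    refine ⟨(hmem A hA).1, ?_⟩
    intro x hx
    rw [hU, Finset.mem_union, Finset.mem_biUnion]
    by_cases h6 : x ∈ ({a, b} : Finset (Fin n))
    · exact Or.inl h6
    · exact Or.inr ⟨A, hA, Finset.mem_sdiff.2 ⟨hx, h6⟩⟩
  have := Finset.card_le_card h5
  omega

/-- A linear subsystem of positive proportion. -/
theorem linearize (H : Finset (Finset (Fin n))) (h3 : ∀ A ∈ H, A.card = 3) (hfree : Free e H) :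
    ∃ M ⊆ H, H.card ≤ (3 * e + 1) * M.card ∧ Linear M := by
  obtain ⟨T, hT, hc, hind⟩ := indep (fun A B : Finset (Fin n) =>
    ∃ a b, a ≠ b ∧ a ∈ A ∧ b ∈ A ∧ a ∈ B ∧ b ∈ B)
    (by rintro A B ⟨a, b, h, h1, h2, h4, h5⟩; exact ⟨a, b, h, h4, h5, h1, h2⟩) (3 * e) H (by
      intro A hA F hFH hF
      obtain ⟨x, y, z, hxy, hxz, hyz, rfl⟩ := Finset.card_eq_three.1 (h3 A hA)
      refine (Finset.card_le_card (t := (H.filter (fun B => x ∈ B ∧ y ∈ B) ∪
              H.filter (fun B => x ∈ B ∧ z ∈ B)) ∪ H.filter (fun B => y ∈ B ∧ z ∈ B))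
        (fun B hB => ?_)).trans ((Finset.card_union_le _ _).trans ?_)
      · obtain ⟨_, a, b, hab, ha, hb, haB, hbB⟩ := hF B hB
        have hBH := hFH hB
        simp only [Finset.mem_insert, Finset.mem_singleton] at ha hb
        simp only [Finset.mem_union, Finset.mem_filter]
        rcases ha with rfl | rfl | rfl <;> rcases hb with rfl | rfl | rfl <;> tauto
      have e1 := Finset.card_union_le (H.filter (fun B => x ∈ B ∧ y ∈ B))
        (H.filter (fun B => x ∈ B ∧ z ∈ B))
      have e2 := pair_le H h3 hfree hxy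
      have e3 := pair_le H h3 hfree hxz
      have e4 := pair_le H h3 hfree hyz
      omega)
  refine ⟨T, hT, hc, ?_⟩
  intro A hA B hB a b hab h1 h2 h4 h5
  by_contra hne
  exact hind A hA B hB hne ⟨a, b, hab, h1, h2, h4, h5⟩

/-- The two-level grid contains `e` edges on at most `e + 3` vertices. -/
theorem grid (H : Finset (Finset (Fin n))) (hfree : Free e H) (q h1 h2 : ℕ) (h12 : h2 ≤ h1)
    (hsum : h1 + h2 = e) (hq : h1 ≤ 3 * q) (hnum : 3 + (h1 + 2) / 3 + (h2 + 2) / 3 ≤ h2)
    (x x' : Fin q → Fin n) (y y' : Fin 3 → Fin n) (z : Fin 3 → Fin q → Fin n)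
    (A B : Fin 3 × Fin q → Finset (Fin n)) (hA : ∀ p, A p ∈ H) (hB : ∀ p, B p ∈ H)
    (hAs : ∀ p, A p ⊆ {x p.2, y p.1, z p.1 p.2}) (hBs : ∀ p, B p ⊆ {x' p.2, y' p.1, z p.1 p.2})
    (hAi : Function.Injective A) (hBi : Function.Injective B) (hAB : ∀ p p', A p ≠ B p') :
    False := by
  set f : Fin h1 → Fin 3 × Fin q := fun m => (⟨m % 3, Nat.mod_lt _ (by norm_num)⟩,
    ⟨m / 3, by have := m.2; omega⟩) with hf
  have hfi : Function.Injective f := by
    intro m m' h
    have e1 : (m : ℕ) % 3 = (m' : ℕ) % 3 := by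
      have := congrArg (fun p : Fin 3 × Fin q => (p.1 : ℕ)) h
      simpa [hf] using this
    have e2 : (m : ℕ) / 3 = (m' : ℕ) / 3 := by
      have := congrArg (fun p : Fin 3 × Fin q => (p.2 : ℕ)) h
      simpa [hf] using this
    apply Fin.ext
    omega
  set g : Fin h2 → Fin 3 × Fin q := fun m => f (Fin.castLE h12 m) with hg
  have hgi : Function.Injective g := fun m m' h => Fin.castLE_injective h12 (hfi h)
  set J1 : Finset (Fin q) := univ.filter (fun j => 3 * (j : ℕ) < h1) with hJ1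
  set J2 : Finset (Fin q) := univ.filter (fun j => 3 * (j : ℕ) < h2) with hJ2
  have hJ : ∀ h : ℕ, (univ.filter (fun j : Fin q => 3 * (j : ℕ) < h)).card ≤ (h + 2) / 3 := by
    intro h
    calc (univ.filter (fun j : Fin q => 3 * (j : ℕ) < h)).card
        ≤ (Finset.range ((h + 2) / 3)).card := by
          refine Finset.card_le_card_of_injOn (fun j => (j : ℕ)) ?_ ?_
          · intro j hj
            have := (Finset.mem_filter.1 (Finset.mem_coe.1 hj)).2
            refine Finset.mem_coe.2 (Finset.mem_range.2 ?_)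
            show (j : ℕ) < (h + 2) / 3
            omega
          · intro j _ j' _ h'
            exact Fin.ext h'
      _ = _ := Finset.card_range _
  set U : Finset (Fin n) := (univ.image y ∪ univ.image y') ∪ (univ.image (fun m => z (f m).1 (f m).2)) ∪
    (J1.image x ∪ J2.image x') with hU
  have hUc : U.card ≤ e + 3 := by
    have e1 : (univ.image y).card ≤ 3 := by
      refine Finset.card_image_le.trans ?_
      simp
    have e2 : (univ.image y').card ≤ 3 := by
      refine Finset.card_image_le.trans ?_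
      simp
    have e3 : (univ.image (fun m => z (f m).1 (f m).2)).card ≤ h1 := by
      refine Finset.card_image_le.trans ?_
      simp
    have e4 : (J1.image x).card ≤ (h1 + 2) / 3 := Finset.card_image_le.trans (hJ h1)
    have e5 : (J2.image x').card ≤ (h2 + 2) / 3 := Finset.card_image_le.trans (hJ h2)
    have e6 := Finset.card_union_le (univ.image y) (univ.image y')
    have e7 := Finset.card_union_le (univ.image y ∪ univ.image y')
      (univ.image (fun m => z (f m).1 (f m).2))
    have e8 := Finset.card_union_le (J1.image x) (J2.image x')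
    have e9 := Finset.card_union_le
      ((univ.image y ∪ univ.image y') ∪ (univ.image (fun m => z (f m).1 (f m).2)))
      (J1.image x ∪ J2.image x')
    rw [← hU] at e9
    omega
  have hfm : ∀ m : Fin h1, 3 * ((f m).2 : ℕ) < h1 := by
    intro m
    have := m.2
    show 3 * ((m : ℕ) / 3) < h1
    omega
  have hgm : ∀ m : Fin h2, 3 * ((g m).2 : ℕ) < h2 := by
    intro m
    have := m.2
    show 3 * ((m : ℕ) / 3) < h2
    omega
  have hsubA : ∀ m : Fin h1, A (f m) ⊆ U := by
    intro m v hv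
    have h3 := hAs (f m) hv
    simp only [Finset.mem_insert, Finset.mem_singleton] at h3
    simp only [hU, Finset.mem_union]
    rcases h3 with h3 | h3 | h3
    · right; left
      rw [h3]
      exact Finset.mem_image_of_mem _ (Finset.mem_filter.2 ⟨mem_univ _, hfm m⟩)
    · left; left; left
      rw [h3]
      exact Finset.mem_image_of_mem _ (mem_univ _)
    · left; right
      rw [h3]
      exact Finset.mem_image.2 ⟨m, mem_univ _, rfl⟩
  have hsubB : ∀ m : Fin h2, B (g m) ⊆ U := by
    intro m v hv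
    have h3 := hBs (g m) hv
    simp only [Finset.mem_insert, Finset.mem_singleton] at h3
    simp only [hU, Finset.mem_union]
    rcases h3 with h3 | h3 | h3
    · right; right
      rw [h3]
      exact Finset.mem_image_of_mem _ (Finset.mem_filter.2 ⟨mem_univ _, hgm m⟩)
    · left; left; right
      rw [h3]
      exact Finset.mem_image_of_mem _ (mem_univ _)
    · left; right
      rw [h3]
      exact Finset.mem_image.2 ⟨Fin.castLE h12 m, mem_univ _, rfl⟩
  have hcount := hfree U hUc
  have hE : (univ.image (fun m => A (f m))) ∪ (univ.image (fun m => B (g m))) ⊆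
      H.filter (fun A => A ⊆ U) := by
    intro C hC
    rw [Finset.mem_union, Finset.mem_image, Finset.mem_image] at hC
    rw [Finset.mem_filter]
    rcases hC with ⟨m, _, rfl⟩ | ⟨m, _, rfl⟩
    · exact ⟨hA _, hsubA m⟩
    · exact ⟨hB _, hsubB m⟩
  have hEc := Finset.card_le_card hE
  rw [Finset.card_union_of_disjoint (by
    rw [Finset.disjoint_left]
    intro C hC hC'
    obtain ⟨m, _, h3⟩ := Finset.mem_image.1 hC
    obtain ⟨m', _, h4⟩ := Finset.mem_image.1 hC'
    exact hAB _ _ (h3.trans h4.symm)),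
    Finset.card_image_of_injective _ (show Function.Injective (fun m => A (f m)) from hAi.comp hfi),
    Finset.card_image_of_injective _ (show Function.Injective (fun m => B (g m)) from hBi.comp hgi),
    Finset.card_univ, Finset.card_univ, Fintype.card_fin, Fintype.card_fin] at hEc
  omega

/-- Ordered triples: a linear system with a choice of an ordering of every edge. -/
structure Ord {n : ℕ} (M : Finset (Finset (Fin n))) where
  /-- first vertex -/
  fx : Finset (Fin n) → Fin n
  /-- second vertex -/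
  fy : Finset (Fin n) → Fin n
  /-- third vertex -/
  fz : Finset (Fin n) → Fin n
  xy : ∀ A ∈ M, fx A ≠ fy A
  xz : ∀ A ∈ M, fx A ≠ fz A
  yz : ∀ A ∈ M, fy A ≠ fz A
  eq : ∀ A ∈ M, A = {fx A, fy A, fz A}

namespace Ord

variable {M : Finset (Finset (Fin n))} (o : Ord M) (hM : Linear M)

theorem memx {A : Finset (Fin n)} (hA : A ∈ M) : o.fx A ∈ A := by
  have h := o.eq A hA
  have : o.fx A ∈ ({o.fx A, o.fy A, o.fz A} : Finset (Fin n)) := by simp
  rwa [← h] at this

theorem memy {A : Finset (Fin n)} (hA : A ∈ M) : o.fy A ∈ A := by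
  have h := o.eq A hA
  have : o.fy A ∈ ({o.fx A, o.fy A, o.fz A} : Finset (Fin n)) := by simp
  rwa [← h] at this

theorem memz {A : Finset (Fin n)} (hA : A ∈ M) : o.fz A ∈ A := by
  have h := o.eq A hA
  have : o.fz A ∈ ({o.fx A, o.fy A, o.fz A} : Finset (Fin n)) := by simp
  rwa [← h] at this

include hM in
theorem exy {A B : Finset (Fin n)} (hA : A ∈ M) (hB : B ∈ M) (h1 : o.fx A = o.fx B)
    (h2 : o.fy A = o.fy B) : A = B :=
  hM A hA B hB _ _ (o.xy A hA) (o.memx hA) (o.memy hA) (h1 ▸ o.memx hB) (h2 ▸ o.memy hB)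

include hM in
theorem exz {A B : Finset (Fin n)} (hA : A ∈ M) (hB : B ∈ M) (h1 : o.fx A = o.fx B)
    (h2 : o.fz A = o.fz B) : A = B :=
  hM A hA B hB _ _ (o.xz A hA) (o.memx hA) (o.memz hA) (h1 ▸ o.memx hB) (h2 ▸ o.memz hB)

include hM in
theorem eyz {A B : Finset (Fin n)} (hA : A ∈ M) (hB : B ∈ M) (h1 : o.fy A = o.fy B)
    (h2 : o.fz A = o.fz B) : A = B :=
  hM A hA B hB _ _ (o.yz A hA) (o.memy hA) (o.memz hA) (h1 ▸ o.memy hB) (h2 ▸ o.memz hB)

/-- The coincidence relation. -/
def Rel (E : Finset (Finset (Fin n))) (q p : Fin n × Fin n) : Prop :=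
  ∃ A ∈ E, ∃ B ∈ E, A ≠ B ∧ o.fz A = o.fz B ∧ o.fx A = q.1 ∧ o.fx B = q.2 ∧ o.fy A = p.1 ∧
    o.fy B = p.2

variable {E : Finset (Finset (Fin n))} (hE : E ⊆ M)

include hM hE in
theorem q1 {q q' p : Fin n × Fin n} (h : o.Rel E q p) (h' : o.Rel E q' p) (h1 : q.1 = q'.1) :
    q = q' := by
  obtain ⟨A, hA, B, hB, _, h2, h3, h4, h5, h6⟩ := h
  obtain ⟨A', hA', B', hB', _, k2, k3, k4, k5, k6⟩ := h'
  have e1 : A = A' := o.exy hM (hE hA) (hE hA') (by rw [h3, k3, h1]) (by rw [h5, k5])
  have e2 : B = B' := o.eyz hM (hE hB) (hE hB') (by rw [h6, k6]) (by rw [← h2, ← k2, e1])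
  exact Prod.ext h1 (by rw [← h4, ← k4, e2])

include hM hE in
theorem q2 {q q' p : Fin n × Fin n} (h : o.Rel E q p) (h' : o.Rel E q' p) (h1 : q.2 = q'.2) :
    q = q' := by
  obtain ⟨A, hA, B, hB, _, h2, h3, h4, h5, h6⟩ := h
  obtain ⟨A', hA', B', hB', _, k2, k3, k4, k5, k6⟩ := h'
  have e1 : B = B' := o.exy hM (hE hB) (hE hB') (by rw [h4, k4, h1]) (by rw [h6, k6])
  have e2 : A = A' := o.eyz hM (hE hA) (hE hA') (by rw [h5, k5]) (by rw [h2, k2, e1])
  exact Prod.ext (by rw [← h3, ← k3, e2]) h1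

include hM hE in
theorem p1 {q p p' : Fin n × Fin n} (h : o.Rel E q p) (h' : o.Rel E q p') (h1 : p.1 = p'.1) :
    p = p' := by
  obtain ⟨A, hA, B, hB, _, h2, h3, h4, h5, h6⟩ := h
  obtain ⟨A', hA', B', hB', _, k2, k3, k4, k5, k6⟩ := h'
  have e1 : A = A' := o.exy hM (hE hA) (hE hA') (by rw [h3, k3]) (by rw [h5, k5, h1])
  have e2 : B = B' := o.exz hM (hE hB) (hE hB') (by rw [h4, k4]) (by rw [← h2, ← k2, e1])
  exact Prod.ext h1 (by rw [← h6, ← k6, e2])

include hM hE in
theorem p2 {q p p' : Fin n × Fin n} (h : o.Rel E q p) (h' : o.Rel E q p') (h1 : p.2 = p'.2) :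
    p = p' := by
  obtain ⟨A, hA, B, hB, _, h2, h3, h4, h5, h6⟩ := h
  obtain ⟨A', hA', B', hB', _, k2, k3, k4, k5, k6⟩ := h'
  have e1 : B = B' := o.exy hM (hE hB) (hE hB') (by rw [h4, k4]) (by rw [h6, k6, h1])
  have e2 : A = A' := o.exz hM (hE hA) (hE hA') (by rw [h3, k3]) (by rw [h2, k2, e1])
  exact Prod.ext (by rw [← h5, ← k5, e2]) h1

include hM hE in
theorem qne {q p : Fin n × Fin n} (h : o.Rel E q p) : q.1 ≠ q.2 := by
  obtain ⟨A, hA, B, hB, hne, h2, h3, h4, h5, h6⟩ := h
  intro h7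
  exact hne (o.exz hM (hE hA) (hE hB) (by rw [h3, h4, h7]) h2)

include hM hE in
/-- Three points have few common sets. -/
theorem free3 (hfree : Free e M) (he : e = 18 ∨ 22 ≤ e) (S : Finset (Fin n × Fin n))
    (hS : S.card = 3) : (univ.filter (fun q => ∀ p ∈ S, o.Rel E q p)).card ≤ 3 * e := by
  by_contra hcon
  push Not at hcon
  set Q := univ.filter (fun q => ∀ p ∈ S, o.Rel E q p) with hQ
  have hQm : ∀ q ∈ Q, ∀ p ∈ S, o.Rel E q p := fun q hq => (Finset.mem_filter.1 hq).2
  obtain ⟨p0, hp0⟩ : S.Nonempty := by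
    rw [← Finset.card_pos]; omega
  have inj1 : ∀ q ∈ Q, ∀ q' ∈ Q, q.1 = q'.1 → q = q' := fun q hq q' hq' h =>
    o.q1 hM hE (hQm q hq p0 hp0) (hQm q' hq' p0 hp0) h
  have inj2 : ∀ q ∈ Q, ∀ q' ∈ Q, q.2 = q'.2 → q = q' := fun q hq q' hq' h =>
    o.q2 hM hE (hQm q hq p0 hp0) (hQm q' hq' p0 hp0) h
  obtain ⟨T, hT, hTc, hTi⟩ := indep (fun a b : Fin n × Fin n => a.1 = b.2 ∨ b.1 = a.2)
    (by rintro a b (h | h) <;> tauto) 2 Q (by
      intro a _ F hFQ hF
      refine (Finset.card_le_card (t := Q.filter (fun b => b.2 = a.1) ∪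
        Q.filter (fun b => b.1 = a.2)) (fun b hb => ?_)).trans ((Finset.card_union_le _ _).trans ?_)
      · have hb1 : b ∈ Q := hFQ hb
        have hb2 := (hF b hb).2
        rw [Finset.mem_union]
        rcases hb2 with h | h
        · exact Or.inl (Finset.mem_filter.2 ⟨hb1, h.symm⟩)
        · exact Or.inr (Finset.mem_filter.2 ⟨hb1, h⟩)
      have h2 : (Q.filter (fun b => b.2 = a.1)).card ≤ 1 := by
        rw [Finset.card_le_one]
        intro b hb c hc
        rw [Finset.mem_filter] at hb hc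
        exact inj2 b hb.1 c hc.1 (hb.2.trans hc.2.symm)
      have h3 : (Q.filter (fun b => b.1 = a.2)).card ≤ 1 := by
        rw [Finset.card_le_one]
        intro b hb c hc
        rw [Finset.mem_filter] at hb hc
        exact inj1 b hb.1 c hc.1 (hb.2.trans hc.2.symm)
      omega)
  have hTe : e ≤ T.card := by omega
  obtain ⟨T', hT', hT'c⟩ := Finset.exists_subset_card_eq hTe
  let j : Fin e ≃ T' := (Finset.equivFinOfCardEq hT'c).symm
  let i : Fin 3 ≃ S := (Finset.equivFinOfCardEq hS).symm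
  have hrel : ∀ a : Fin 3 × Fin e, o.Rel E (j a.2).1 (i a.1).1 := fun a =>
    hQm _ (hT (hT' (j a.2).2)) _ (i a.1).2
  choose A hA B hB hne h2 h3 h4 h5 h6 using hrel
  have hjinj : ∀ a b : Fin e, (j a).1.1 = (j b).1.1 → a = b := fun a b h =>
    j.injective (Subtype.ext (inj1 _ (hT (hT' (j a).2)) _ (hT (hT' (j b).2)) h))
  have hjinj2 : ∀ a b : Fin e, (j a).1.2 = (j b).1.2 → a = b := fun a b h =>
    j.injective (Subtype.ext (inj2 _ (hT (hT' (j a).2)) _ (hT (hT' (j b).2)) h))
  have hQne : Q.Nonempty := by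
    rw [← Finset.card_pos]; omega
  obtain ⟨q0, hq0⟩ := hQne
  have hiinj : ∀ a b : Fin 3, (i a).1.1 = (i b).1.1 → a = b := fun a b h =>
    i.injective (Subtype.ext (o.p1 hM hE (hQm q0 hq0 _ (i a).2) (hQm q0 hq0 _ (i b).2) h))
  have hiinj2 : ∀ a b : Fin 3, (i a).1.2 = (i b).1.2 → a = b := fun a b h =>
    i.injective (Subtype.ext (o.p2 hM hE (hQm q0 hq0 _ (i a).2) (hQm q0 hq0 _ (i b).2) h))
  refine grid M hfree e ((e + 1) / 2) (e / 2) (by omega) (by omega) (by omega) (by omega)
    (fun a => (j a).1.1) (fun a => (j a).1.2) (fun a => (i a).1.1) (fun a => (i a).1.2)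
    (fun a b => o.fz (A (a, b))) A B (fun p => hE (hA p)) (fun p => hE (hB p)) ?_ ?_ ?_ ?_ ?_
  · intro p
    have h7 := o.eq (A p) (hE (hA p))
    rw [h3 p, h5 p] at h7
    exact h7.le
  · intro p
    have h7 := o.eq (B p) (hE (hB p))
    rw [h4 p, h6 p, ← h2 p] at h7
    exact h7.le
  · intro p p' hpp
    have e1 : p.2 = p'.2 := hjinj _ _ (by rw [← h3 p, ← h3 p', hpp])
    have e2 : p.1 = p'.1 := hiinj _ _ (by rw [← h5 p, ← h5 p', hpp])
    exact Prod.ext e2 e1
  · intro p p' hpp
    have e1 : p.2 = p'.2 := hjinj2 _ _ (by rw [← h4 p, ← h4 p', hpp])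
    have e2 : p.1 = p'.1 := hiinj2 _ _ (by rw [← h6 p, ← h6 p', hpp])
    exact Prod.ext e2 e1
  · intro p p' hpp
    have e1 : (j p.2).1.1 = (j p'.2).1.2 := by rw [← h3 p, ← h4 p', hpp]
    by_cases h7 : (j p.2).1 = (j p'.2).1
    · have h8 := o.qne hM hE (hQm _ (hT (hT' (j p'.2).2)) p0 hp0)
      apply h8
      rw [← e1, h7]
    · exact hTi _ (hT' (j p.2).2) _ (hT' (j p'.2).2) h7 (Or.inl e1)

include hM hE in
/-- A point lies in at most `n` sets. -/
theorem deg_le (p : Fin n × Fin n) : (univ.filter (fun q => o.Rel E q p)).card ≤ n := by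
  calc (univ.filter (fun q => o.Rel E q p)).card ≤ (univ : Finset (Fin n)).card := by
        refine Finset.card_le_card_of_injOn (fun q => q.1) (fun q _ => Finset.mem_coe.2 (mem_univ _)) ?_
        intro q hq q' hq' h
        exact o.q1 hM hE (Finset.mem_filter.1 (Finset.mem_coe.1 hq)).2
          (Finset.mem_filter.1 (Finset.mem_coe.1 hq')).2 h
    _ = n := by rw [Finset.card_univ, Fintype.card_fin]

include hM hE in
/-- Many coincidences. -/
theorem count : E.card ^ 2 ≤ n * (∑ q : Fin n × Fin n, (univ.filter (fun p => o.Rel E q p)).card +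
    E.card) := by
  have h1 : ∑ z : Fin n, (E.filter (fun A => o.fz A = z)).card = E.card := by
    rw [← Finset.card_eq_sum_card_fiberwise (f := o.fz) (t := univ)
      (fun A _ => Finset.mem_coe.2 (mem_univ _))]
  have h2 : E.card ^ 2 ≤ n * ∑ z : Fin n, (E.filter (fun A => o.fz A = z)).card ^ 2 := by
    have h3 := sq_sum_le_card_mul_sum_sq (s := (univ : Finset (Fin n)))
      (f := fun z => (E.filter (fun A => o.fz A = z)).card)
    rw [h1, Finset.card_univ, Fintype.card_fin] at h3
    exact h3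
  refine h2.trans (Nat.mul_le_mul_left _ ?_)
  -- pairs of edges with the same third vertex
  set Z : Finset (Finset (Fin n) × Finset (Fin n)) :=
    (E ×ˢ E).filter (fun p => o.fz p.1 = o.fz p.2) with hZ
  have h4 : ∑ z : Fin n, (E.filter (fun A => o.fz A = z)).card ^ 2 = Z.card := by
    rw [Finset.card_eq_sum_card_fiberwise (f := fun p => o.fz p.1) (t := univ)
      (fun A _ => Finset.mem_coe.2 (mem_univ _))]
    refine Finset.sum_congr rfl fun z _ => ?_
    rw [sq, ← Finset.card_product]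
    congr 1
    ext p
    simp only [hZ, Finset.mem_product, Finset.mem_filter]
    constructor
    · rintro ⟨⟨h5, h6⟩, h7, h8⟩
      exact ⟨⟨⟨h5, h7⟩, h6.trans h8.symm⟩, h6⟩
    · rintro ⟨⟨⟨h5, h6⟩, h7⟩, h8⟩
      exact ⟨⟨h5, h8⟩, h6, h7.symm.trans h8⟩
  rw [h4]
  have h5 : Z ⊆ (Z.filter (fun p => p.1 ≠ p.2)) ∪ E.image (fun A => (A, A)) := by
    intro p hp
    rw [Finset.mem_union, Finset.mem_filter, Finset.mem_image]
    by_cases h6 : p.1 = p.2
    · right
      refine ⟨p.1, ?_, ?_⟩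
      · rw [hZ, Finset.mem_filter, Finset.mem_product] at hp
        exact hp.1.1
      · exact Prod.ext rfl h6
    · exact Or.inl ⟨hp, h6⟩
  refine (Finset.card_le_card h5).trans ((Finset.card_union_le _ _).trans
    (Nat.add_le_add ?_ Finset.card_image_le))
  have h6 : ∑ q : Fin n × Fin n, (univ.filter (fun p => o.Rel E q p)).card =
      (univ.filter (fun qp : (Fin n × Fin n) × (Fin n × Fin n) => o.Rel E qp.1 qp.2)).card := by
    rw [Finset.card_filter (fun qp : (Fin n × Fin n) × (Fin n × Fin n) => o.Rel E qp.1 qp.2) univ]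
    rw [show (univ : Finset ((Fin n × Fin n) × (Fin n × Fin n))) = univ ×ˢ univ from
      (Finset.univ_product_univ).symm]
    rw [Finset.sum_product]
    refine Finset.sum_congr rfl fun q _ => ?_
    rw [Finset.card_filter]
  rw [h6]
  refine Finset.card_le_card_of_injOn
    (fun p => ((o.fx p.1, o.fx p.2), (o.fy p.1, o.fy p.2))) ?_ ?_
  · intro p hp
    have hp' := Finset.mem_filter.1 (Finset.mem_coe.1 hp)
    have hp2 := Finset.mem_filter.1 hp'.1
    have hp3 := Finset.mem_product.1 hp2.1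
    exact Finset.mem_coe.2 (Finset.mem_filter.2 ⟨mem_univ _,
      p.1, hp3.1, p.2, hp3.2, hp'.2, hp2.2, rfl, rfl, rfl, rfl⟩)
  · intro p hp p' hp' h
    have a1 := Finset.mem_product.1 (Finset.mem_filter.1
      (Finset.mem_filter.1 (Finset.mem_coe.1 hp)).1).1
    have a2 := Finset.mem_product.1 (Finset.mem_filter.1
      (Finset.mem_filter.1 (Finset.mem_coe.1 hp')).1).1
    simp only [Prod.mk.injEq] at h
    exact Prod.ext (o.exy hM (hE a1.1) (hE a2.1) h.1.1 h.2.1)
      (o.exy hM (hE a1.2) (hE a2.2) h.1.2 h.2.2)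

end Ord

end Pool.Agent.U671.LC
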