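import Pool.Agent.U671.LC.Curve
import Pool.Agent.U671.LC.Core
import Pool.Agent.U671.LC.Grid

/-!
Links on curves, part 5: assembly.
-/

set_option autoImplicit false

namespace Pool.Agent.U671.LC

open Finset
open Pool.Agent.U671.SD
open Pool.Agent.R98.EQ (degSum Crosses)

open scoped Classical

/-- The vertices are placed at distinct real numbers `u v`, and every vertex `x` has a plane
algebraic curve `P x = 0` of degree at most `D` such that every edge is `{x, y, z}` with the point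
`(u y, u z)` on the curve of `x`. -/
def OnCurves (D : ℕ) {n : ℕ} (H : Finset (Finset (Fin n))) : Prop :=
  ∃ (u : Fin n → ℝ) (P : Fin n → MvPolynomial (Fin 2) ℝ), Function.Injective u ∧
    (∀ x, P x ≠ 0 ∧ (P x).totalDegree ≤ D) ∧
    ∀ A ∈ H, ∃ x y z, x ≠ y ∧ x ≠ z ∧ y ≠ z ∧ A = {x, y, z} ∧
      MvPolynomial.eval ![u y, u z] (P x) = 0

/-- The numerical estimate. -/
theorem numeric {K D t s ρ A : ℝ} (hK : 1 ≤ K) (hD : 1 ≤ D) (ht : 1 ≤ t) (hs : 1 ≤ s)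
    (hρ1 : s ^ 5 ≤ ρ) (hρ2 : ρ ≤ 2 * s ^ 5) (hA1 : s ^ 3 ≤ A) (hA2 : A ≤ 2 * s ^ 3) :
    (K * ρ ^ 2 * (1 + A) * s ^ 7) +
      (((s ^ 14 * (K * (2 * (6 * D ^ 3)) * ρ)) ^ 2 *
        (t * (K * ρ ^ 2 * (s ^ 14 / ρ ^ 2) ^ 3))) ^ (1 / (3 : ℝ)) +
          3 * (s ^ 14 * (K * (2 * (6 * D ^ 3)) * ρ))) +
      ((t ^ (1 / (3 : ℝ)) * A ^ (-(1 / (3 : ℝ))) + 3 / A) * (s ^ 14 * (6 * D ^ 3 * s ^ 7)) +
        A * s ^ 14) ≤
      (12 * K + 144 * t * K + 72 * K + 6 * (t + 3) + 2) * (D ^ 3 * s ^ 20) := by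
  have hs0 : 0 < s := by linarith
  have hρ0 : 0 < ρ := lt_of_lt_of_le (by positivity) hρ1
  have hA0 : 0 < A := lt_of_lt_of_le (by positivity) hA1
  have hD3 : 1 ≤ D ^ 3 := one_le_pow₀ hD
  have hs3 : 1 ≤ s ^ 3 := one_le_pow₀ hs
  -- (a)
  have h1 : K * ρ ^ 2 * (1 + A) * s ^ 7 ≤ 12 * K * (D ^ 3 * s ^ 20) := by
    have e1 : ρ ^ 2 ≤ (2 * s ^ 5) ^ 2 := pow_le_pow_left₀ hρ0.le hρ2 2
    have e2 : 1 + A ≤ 3 * s ^ 3 := by linarith
    calc K * ρ ^ 2 * (1 + A) * s ^ 7 ≤ K * (2 * s ^ 5) ^ 2 * (3 * s ^ 3) * s ^ 7 := by gcongr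
      _ = 12 * K * (1 * s ^ 20) := by ring
      _ ≤ 12 * K * (D ^ 3 * s ^ 20) := by gcongr
  -- (b)
  have h2 : ((s ^ 14 * (K * (2 * (6 * D ^ 3)) * ρ)) ^ 2 *
      (t * (K * ρ ^ 2 * (s ^ 14 / ρ ^ 2) ^ 3))) ^ (1 / (3 : ℝ)) ≤
      144 * t * K * (D ^ 3 * s ^ 20) := by
    have e1 : (s ^ 14 * (K * (2 * (6 * D ^ 3)) * ρ)) ^ 2 *
        (t * (K * ρ ^ 2 * (s ^ 14 / ρ ^ 2) ^ 3)) = 144 * t * K ^ 3 * D ^ 6 * s ^ 60 *
          (s ^ 10 / ρ ^ 2) := by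
      field_simp
      ring
    have e2 : s ^ 10 / ρ ^ 2 ≤ 1 := by
      rw [div_le_one (by positivity)]
      calc s ^ 10 = (s ^ 5) ^ 2 := by ring
        _ ≤ ρ ^ 2 := pow_le_pow_left₀ (by positivity) hρ1 2
    have e3 : 144 * t * K ^ 3 * D ^ 6 * s ^ 60 * (s ^ 10 / ρ ^ 2) ≤
        (144 * t * K * (D ^ 3 * s ^ 20)) ^ 3 := by
      calc 144 * t * K ^ 3 * D ^ 6 * s ^ 60 * (s ^ 10 / ρ ^ 2)
          ≤ 144 * t * K ^ 3 * D ^ 6 * s ^ 60 * 1 := by gcongr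
        _ = (144 * t * K ^ 3 * D ^ 6 * s ^ 60) * (1 * 1 * 1) := by ring
        _ ≤ (144 * t * K ^ 3 * D ^ 6 * s ^ 60) * (144 ^ 2 * t ^ 2 * D ^ 3) := by
            have : 1 ≤ t ^ 2 := one_le_pow₀ ht
            gcongr
            norm_num
        _ = (144 * t * K * (D ^ 3 * s ^ 20)) ^ 3 := by ring
    rw [e1]
    calc (144 * t * K ^ 3 * D ^ 6 * s ^ 60 * (s ^ 10 / ρ ^ 2)) ^ (1 / (3 : ℝ))
        ≤ ((144 * t * K * (D ^ 3 * s ^ 20)) ^ 3) ^ (1 / (3 : ℝ)) :=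
          Real.rpow_le_rpow (by positivity) e3 (by norm_num)
      _ = 144 * t * K * (D ^ 3 * s ^ 20) := by
          rw [← Real.rpow_natCast, ← Real.rpow_mul (by positivity)]
          norm_num
  -- (c)
  have h3 : 3 * (s ^ 14 * (K * (2 * (6 * D ^ 3)) * ρ)) ≤ 72 * K * (D ^ 3 * s ^ 20) := by
    calc 3 * (s ^ 14 * (K * (2 * (6 * D ^ 3)) * ρ))
        ≤ 3 * (s ^ 14 * (K * (2 * (6 * D ^ 3)) * (2 * s ^ 5))) := by gcongr
      _ = 72 * K * (D ^ 3 * (s ^ 19 * 1)) := by ring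
      _ ≤ 72 * K * (D ^ 3 * (s ^ 19 * s)) := by gcongr
      _ = 72 * K * (D ^ 3 * s ^ 20) := by ring
  -- (d)
  have h4 : (t ^ (1 / (3 : ℝ)) * A ^ (-(1 / (3 : ℝ))) + 3 / A) * (s ^ 14 * (6 * D ^ 3 * s ^ 7)) ≤
      6 * (t + 3) * (D ^ 3 * s ^ 20) := by
    have e1 : t ^ (1 / (3 : ℝ)) ≤ t := by
      calc t ^ (1 / (3 : ℝ)) ≤ t ^ (1 : ℝ) := Real.rpow_le_rpow_of_exponent_le ht (by norm_num)
        _ = t := Real.rpow_one t
    have e2 : A ^ (-(1 / (3 : ℝ))) ≤ 1 / s := by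
      calc A ^ (-(1 / (3 : ℝ))) ≤ (s ^ 3) ^ (-(1 / (3 : ℝ))) :=
            Real.rpow_le_rpow_of_nonpos (by positivity) hA1 (by norm_num)
        _ = 1 / s := by
            rw [← Real.rpow_natCast, ← Real.rpow_mul hs0.le]
            norm_num
            rw [Real.rpow_neg_one]
    have e3 : 3 / A ≤ 3 / s := by
      apply div_le_div_of_nonneg_left (by norm_num) hs0
      calc s = s * 1 := by ring
        _ ≤ s * s ^ 2 := by
            have : 1 ≤ s ^ 2 := one_le_pow₀ hs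
            gcongr
        _ = s ^ 3 := by ring
        _ ≤ A := hA1
    have e4 : t ^ (1 / (3 : ℝ)) * A ^ (-(1 / (3 : ℝ))) + 3 / A ≤ (t + 3) / s := by
      have : t ^ (1 / (3 : ℝ)) * A ^ (-(1 / (3 : ℝ))) ≤ t * (1 / s) := by gcongr
      calc t ^ (1 / (3 : ℝ)) * A ^ (-(1 / (3 : ℝ))) + 3 / A ≤ t * (1 / s) + 3 / s := by linarith
        _ = (t + 3) / s := by ring
    calc (t ^ (1 / (3 : ℝ)) * A ^ (-(1 / (3 : ℝ))) + 3 / A) * (s ^ 14 * (6 * D ^ 3 * s ^ 7))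
        ≤ (t + 3) / s * (s ^ 14 * (6 * D ^ 3 * s ^ 7)) := by gcongr
      _ = 6 * (t + 3) * (D ^ 3 * s ^ 20) := by
          field_simp
  -- (e)
  have h5 : A * s ^ 14 ≤ 2 * (D ^ 3 * s ^ 20) := by
    calc A * s ^ 14 ≤ 2 * s ^ 3 * s ^ 14 := by gcongr
      _ = 2 * (1 * (s ^ 17 * 1)) := by ring
      _ ≤ 2 * (D ^ 3 * (s ^ 17 * s ^ 3)) := by gcongr
      _ = 2 * (D ^ 3 * s ^ 20) := by ring
  calc _ ≤ 12 * K * (D ^ 3 * s ^ 20) + (144 * t * K * (D ^ 3 * s ^ 20) +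
        72 * K * (D ^ 3 * s ^ 20)) + (6 * (t + 3) * (D ^ 3 * s ^ 20) + 2 * (D ^ 3 * s ^ 20)) :=
        add_le_add (add_le_add h1 (add_le_add h2 h3)) (add_le_add h4 h5)
    _ = _ := by ring

/-- The number of coincidences. -/
theorem coincidences (e : ℕ) (he : e = 18 ∨ 22 ≤ e) : ∃ C1 : ℝ, 1 ≤ C1 ∧ ∀ (n D : ℕ)
    (M E : Finset (Finset (Fin n))) (u : Fin n → ℝ) (P : Fin n → MvPolynomial (Fin 2) ℝ)
    (o : Ord M) (s : ℝ), 1 ≤ D → Linear M → E ⊆ M → Free e M → Function.Injective u →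
    (∀ x, P x ≠ 0 ∧ (P x).totalDegree ≤ D) →
    (∀ A ∈ M, MvPolynomial.eval ![u (o.fy A), u (o.fz A)] (P (o.fx A)) = 0) →
    (∀ A ∈ E, u (o.fz A) ∉ bad D (P (o.fx A))) → 1 ≤ s → s ^ 7 = n → 12 * (D : ℝ) ^ 3 ≤ s ^ 5 →
    ((∑ q : Fin n × Fin n, (univ.filter (fun p => o.Rel E q p)).card : ℕ) : ℝ) ≤
      C1 * (D ^ 3 * s ^ 20) := by
  obtain ⟨K, hK, hcells⟩ := cells 2 (by norm_num)
  have hK1 : (1 : ℝ) ≤ K := by exact_mod_cast hK
  have he1 : 1 ≤ e := by omega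
  have he1' : (1 : ℝ) ≤ e := by exact_mod_cast he1
  refine ⟨12 * K + 144 * (3 * e) * K + 72 * K + 6 * (3 * e + 3) + 2, by nlinarith, ?_⟩
  intro n D M E u P o s hD hM hE hfree hu hP hM0 hE0 hs hsn hDs
  have hs0 : 0 < s := by linarith
  have hD1 : (1 : ℝ) ≤ D := by exact_mod_cast hD
  -- the polynomials
  have hR : ∀ q : Fin n × Fin n, ∃ R : MvPolynomial (Fin 2) ℝ, R ≠ 0 ∧ R.totalDegree ≤ 6 * D ^ 3 ∧
      ∀ y y' z : ℝ, MvPolynomial.eval ![y, z] (P q.1) = 0 →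
        MvPolynomial.eval ![y', z] (P q.2) = 0 → z ∉ bad D (P q.1) → z ∉ bad D (P q.2) →
        MvPolynomial.eval ![y, y'] R = 0 := fun q =>
    curve D hD (P q.1) (P q.2) (hP _).2 (hP _).2 (hP _).1 (hP _).1
  choose R hR0 hRd hR1 using hR
  set φ : Fin n × Fin n ≃ Fin (n * n) := finProdFinEquiv with hφ
  -- the scale
  obtain ⟨k, hk1, hk2⟩ := exists_nat_pow_near (one_le_pow₀ hs : (1 : ℝ) ≤ s ^ 5)
    (by norm_num : (1 : ℝ) < 2)
  set L : ℕ := k + 1 with hL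
  have hρ1 : s ^ 5 ≤ (2 : ℝ) ^ L := hk2.le
  have hρ2 : (2 : ℝ) ^ L ≤ 2 * s ^ 5 := by
    rw [hL, pow_succ]
    linarith
  set A : ℕ := ⌈s ^ 3⌉₊ with hA
  have hA1 : s ^ 3 ≤ A := Nat.le_ceil _
  have hs3 : 1 ≤ s ^ 3 := one_le_pow₀ hs
  have hA2 : (A : ℝ) ≤ 2 * s ^ 3 := by
    have := Nat.ceil_lt_add_one (by positivity : 0 ≤ s ^ 3)
    linarith
  have hA0 : 1 ≤ A := by
    have : (1 : ℝ) ≤ A := hs3.trans hA1
    exact_mod_cast this
  have hLD : 2 * (6 * D ^ 3) ≤ 2 ^ L := by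
    have h1 : ((2 * (6 * D ^ 3) : ℕ) : ℝ) ≤ ((2 ^ L : ℕ) : ℝ) := by
      push_cast
      linarith
    exact_mod_cast h1
  obtain ⟨κ, hκi, c, h1, h2, h3, h4⟩ := hcells (n * n)
    (fun p => ![u (φ.symm p).1, u (φ.symm p).2]) L (6 * D ^ 3) hLD
  have hWc : 2 ^ (2 * L) = (2 ^ L) ^ 2 := by rw [← pow_mul, Nat.mul_comm]
  have hcore := core (N := n * n) (t := 3 * e) (K := K) (D1 := 6 * D ^ 3) (n := n)
    (W := 2 ^ (2 * L)) (T := K * (2 * (6 * D ^ 3)) * 2 ^ ((2 - 1) * L)) (A := A)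
    (fun q p => o.Rel E (φ.symm q) (φ.symm p)) (by
      intro S hS
      refine le_trans ?_ (o.free3 hM hE hfree he (S.map φ.symm.toEmbedding) (by
        rw [Finset.card_map]; exact hS))
      refine Finset.card_le_card_of_injOn φ.symm ?_ φ.symm.injective.injOn
      intro q hq
      have hq' := (Finset.mem_filter.1 (Finset.mem_coe.1 hq)).2
      refine Finset.mem_coe.2 (Finset.mem_filter.2 ⟨mem_univ _, ?_⟩)
      intro p hp
      obtain ⟨p', hp', rfl⟩ := Finset.mem_map.1 hp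
      exact hq' p' hp')
    (by
      intro p
      refine le_trans ?_ (o.deg_le hM hE (φ.symm p))
      refine Finset.card_le_card_of_injOn φ.symm ?_ φ.symm.injective.injOn
      intro q hq
      exact Finset.mem_coe.2 (Finset.mem_filter.2 ⟨mem_univ _,
        (Finset.mem_filter.1 (Finset.mem_coe.1 hq)).2⟩))
    (fun q => univ.filter (fun p => MvPolynomial.eval
      ![u (φ.symm p).1, u (φ.symm p).2] (R (φ.symm q)) = 0))
    (by
      intro q p hqp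
      rw [Finset.mem_filter]
      refine ⟨mem_univ _, ?_⟩
      obtain ⟨A, hA, B, hB, _, e2, e3, e4, e5, e6⟩ := hqp
      have f1 := hM0 A (hE hA)
      have f2 := hM0 B (hE hB)
      have f3 := hE0 A hA
      have f4 := hE0 B hB
      rw [e3, e5] at f1
      rw [e4, e6, ← e2] at f2
      rw [e3] at f3
      rw [e4, ← e2] at f4
      exact hR1 _ _ _ _ f1 f2 f3 f4)
    (by
      intro q
      refine le_trans ?_ (zeros u hu (R (φ.symm q)) (hR0 _) (hRd _))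
      refine Finset.card_le_card_of_injOn φ.symm ?_ φ.symm.injective.injOn
      intro p hp
      exact Finset.mem_coe.2 (Finset.mem_filter.2 ⟨mem_univ _,
        (Finset.mem_filter.1 (Finset.mem_coe.1 hp)).2⟩))
    c Nat.one_le_two_pow h1 h2 h3 (by
      intro q
      refine le_trans (Finset.card_le_card ?_) (h4 [R (φ.symm q)] (by
        unfold degSum
        simp only [List.map_cons, List.map_nil, List.sum_cons, List.sum_nil, add_zero]
        exact hRd _))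
      intro σ hσ
      obtain ⟨_, i, i', hi, hi', hiS, hiS'⟩ := Finset.mem_filter.1 hσ
      refine Finset.mem_filter.2 ⟨mem_univ _, i, i', hi, hi', R (φ.symm q), by simp, ?_⟩
      have g1 := (Finset.mem_filter.1 hiS).2
      have g2 : ¬ MvPolynomial.eval ![u (φ.symm i').1, u (φ.symm i').2] (R (φ.symm q)) = 0 :=
        fun h => hiS' (Finset.mem_filter.2 ⟨mem_univ _, h⟩)
      rw [g1, sign_zero]
      intro h
      exact g2 (sign_eq_zero_iff.1 h.symm)) hA0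
  have hsum : ∑ q : Fin (n * n), (univ.filter (fun p : Fin (n * n) =>
      o.Rel E (φ.symm q) (φ.symm p))).card =
      ∑ q : Fin n × Fin n, (univ.filter (fun p => o.Rel E q p)).card := by
    rw [← Equiv.sum_comp φ.symm (fun q => (univ.filter (fun p => o.Rel E q p)).card)]
    refine Finset.sum_congr rfl fun q _ => ?_
    refine Finset.card_bij (fun p _ => φ.symm p) ?_ ?_ ?_
    · intro p hp
      exact Finset.mem_filter.2 ⟨mem_univ _, (Finset.mem_filter.1 hp).2⟩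
    · intro p _ p' _ h
      exact φ.symm.injective h
    · intro p hp
      refine ⟨φ p, Finset.mem_filter.2 ⟨mem_univ _, ?_⟩, φ.symm_apply_apply p⟩
      rw [φ.symm_apply_apply]
      exact (Finset.mem_filter.1 hp).2
  rw [hsum] at hcore
  refine hcore.trans ?_
  have hnum := numeric (K := K) (D := D) (t := 3 * e) (s := s) (ρ := 2 ^ L) (A := A) hK1 hD1
    (by linarith) hs hρ1 hρ2 hA1 hA2
  have hnn : ((n * n : ℕ) : ℝ) = s ^ 14 := by
    push_cast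
    rw [← hsn]
    ring
  have hLL : (2 - 1) * L = L := by omega
  rw [hnn, hLL]
  push_cast
  rw [pow_mul', ← hsn]
  exact hnum

end Pool.Agent.U671.LC
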