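import Pool.Agent.U671.LC.Final

/-!
Links on curves, part 6: the main theorem.
-/

set_option autoImplicit false

namespace Pool.Agent.U671.LC

open Finset

open scoped Classical

theorem main_free (e : ℕ) (he : e = 18 ∨ 22 ≤ e) : ∃ C : ℝ, 1 ≤ C ∧ ∀ (n D : ℕ)
    (H : Finset (Finset (Fin n))) (s : ℝ), 1 ≤ D → (∀ A ∈ H, A.card = 3) → OnCurves D H →
    Free e H → 1 ≤ s → s ^ 7 = n → (H.card : ℝ) ^ 2 ≤ C * ((D : ℝ) ^ 3 * s ^ 27) := by
  obtain ⟨C1, hC1, hco⟩ := coincidences e he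
  refine ⟨(3 * e + 1) ^ 2 * (2 * (C1 + 1) + 16), by nlinarith [sq_nonneg (3 * (e : ℝ) + 1),
    (Nat.cast_nonneg e : (0 : ℝ) ≤ e)], ?_⟩
  intro n D H s hD h3 hcur hfree hs hsn
  have hs0 : 0 < s := by linarith
  have hD1 : (1 : ℝ) ≤ D := by exact_mod_cast hD
  obtain ⟨u, P, hu, hP, hH⟩ := hcur
  obtain ⟨M, hMH, hMc, hM⟩ := linearize H h3 hfree
  have hMfree : Free e M := fun U hU => lt_of_le_of_lt
    (Finset.card_le_card (Finset.filter_subset_filter _ hMH)) (hfree U hU)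
  -- the ordering
  have hM3 : ∀ A : Finset (Fin n), ∃ t : Fin n × Fin n × Fin n, A ∈ M → (t.1 ≠ t.2.1 ∧ t.1 ≠ t.2.2 ∧
      t.2.1 ≠ t.2.2 ∧ A = {t.1, t.2.1, t.2.2} ∧
      MvPolynomial.eval ![u t.2.1, u t.2.2] (P t.1) = 0) := by
    intro A
    by_cases hA : A ∈ M
    · obtain ⟨x, y, z, h1, h2, h4, h5, h6⟩ := hH A (hMH hA)
      exact ⟨(x, y, z), fun _ => ⟨h1, h2, h4, h5, h6⟩⟩
    · by_cases hn : Nonempty (Fin n)
      · obtain ⟨v⟩ := hn
        exact ⟨(v, v, v), fun h => absurd h hA⟩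
      · exfalso
        have h1 : 0 < n := by
          rcases Nat.eq_zero_or_pos n with h | h
          · rw [h] at hsn
            have : 0 < s ^ 7 := by positivity
            rw [hsn] at this
            simp at this
          · exact h
        exact hn ⟨⟨0, h1⟩⟩
  choose tt htt using hM3
  let o : Ord M :=
    { fx := fun A => (tt A).1
      fy := fun A => (tt A).2.1
      fz := fun A => (tt A).2.2
      xy := fun A hA => (htt A hA).1
      xz := fun A hA => (htt A hA).2.1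
      yz := fun A hA => (htt A hA).2.2.1
      eq := fun A hA => (htt A hA).2.2.2.1 }
  have hoP : ∀ A ∈ M, MvPolynomial.eval ![u (o.fy A), u (o.fz A)] (P (o.fx A)) = 0 :=
    fun A hA => (htt A hA).2.2.2.2
  set E : Finset (Finset (Fin n)) := M.filter (fun A => u (o.fz A) ∉ bad D (P (o.fx A))) with hE
  have hEM : E ⊆ M := Finset.filter_subset _ _
  -- few edges are lost
  have hlost : (M.filter (fun A => ¬ u (o.fz A) ∉ bad D (P (o.fx A)))).card ≤ D * n := by
    set X : Finset (Fin n × ℝ) := univ.biUnion (fun x : Fin n => (bad D (P x)).image (fun z => (x, z)))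
      with hX
    have hXc : X.card ≤ D * n := by
      rw [hX]
      refine Finset.card_biUnion_le.trans ?_
      calc ∑ x : Fin n, ((bad D (P x)).image (fun z => (x, z))).card ≤ ∑ _x : Fin n, D :=
            Finset.sum_le_sum fun x _ => Finset.card_image_le.trans (bad_card D (P x))
        _ = D * n := by
            rw [Finset.sum_const, smul_eq_mul, Finset.card_univ, Fintype.card_fin, Nat.mul_comm]
    refine le_trans ?_ hXc
    refine Finset.card_le_card_of_injOn (fun A => (o.fx A, u (o.fz A))) ?_ ?_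
    · intro A hA
      have hA' := Finset.mem_filter.1 (Finset.mem_coe.1 hA)
      rw [not_not] at hA'
      refine Finset.mem_coe.2 ?_
      rw [hX, Finset.mem_biUnion]
      exact ⟨o.fx A, mem_univ _, Finset.mem_image_of_mem _ hA'.2⟩
    · intro A hA B hB h
      have hA' := Finset.mem_filter.1 (Finset.mem_coe.1 hA)
      have hB' := Finset.mem_filter.1 (Finset.mem_coe.1 hB)
      simp only [Prod.mk.injEq] at h
      exact o.exz hM hA'.1 hB'.1 h.1 (hu h.2)
  have hME : M.card ≤ E.card + D * n := by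
    have h1 := Finset.card_filter_add_card_filter_not (s := M)
      (fun A => u (o.fz A) ∉ bad D (P (o.fx A)))
    rw [← h1]
    exact Nat.add_le_add le_rfl hlost
  -- M has at most n² members
  have hMn : M.card ≤ n * n := by
    calc M.card ≤ (univ : Finset (Fin n × Fin n)).card := by
          refine Finset.card_le_card_of_injOn (fun A => (o.fx A, o.fy A))
            (fun A _ => Finset.mem_coe.2 (mem_univ _)) ?_
          intro A hA B hB h
          simp only [Prod.mk.injEq] at h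
          exact o.exy hM (Finset.mem_coe.1 hA) (Finset.mem_coe.1 hB) h.1 h.2
      _ = n * n := by rw [Finset.card_univ, Fintype.card_prod, Fintype.card_fin]
  have hMn' : (M.card : ℝ) ≤ s ^ 14 := by
    have h1 : (M.card : ℝ) ≤ ((n * n : ℕ) : ℝ) := by exact_mod_cast hMn
    have h2 : ((n * n : ℕ) : ℝ) = s ^ 14 := by
      push_cast
      rw [← hsn]
      ring
    rwa [h2] at h1
  have hX0 : 0 ≤ (D : ℝ) ^ 3 * s ^ 27 := by positivity
  have hMsq : (M.card : ℝ) ^ 2 ≤ (2 * (C1 + 1) + 16) * ((D : ℝ) ^ 3 * s ^ 27) := by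
    by_cases hDs : 12 * (D : ℝ) ^ 3 ≤ s ^ 5
    · have h1 := hco n D M E u P o s hD hM hEM hMfree hu hP hoP
        (fun A hA => (Finset.mem_filter.1 hA).2) hs hsn hDs
      have h2 := o.count hM hEM
      have h3' : (E.card : ℝ) ^ 2 ≤ (n : ℝ) *
          (((∑ q : Fin n × Fin n, (univ.filter (fun p => o.Rel E q p)).card : ℕ) : ℝ) + E.card) := by
        exact_mod_cast h2
      have hEn : (E.card : ℝ) ≤ s ^ 14 :=
        le_trans (by exact_mod_cast Finset.card_le_card hEM) hMn'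
      have h4 : (E.card : ℝ) ^ 2 ≤ (C1 + 1) * ((D : ℝ) ^ 3 * s ^ 27) := by
        have h5 : s ^ 14 ≤ (D : ℝ) ^ 3 * s ^ 20 := by
          calc s ^ 14 = 1 * (s ^ 14 * 1) := by ring
            _ ≤ (D : ℝ) ^ 3 * (s ^ 14 * s ^ 6) := by
                have e1 : 1 ≤ (D : ℝ) ^ 3 := one_le_pow₀ hD1
                have e2 : 1 ≤ s ^ 6 := one_le_pow₀ hs
                gcongr
            _ = (D : ℝ) ^ 3 * s ^ 20 := by ring
        calc (E.card : ℝ) ^ 2 ≤ (n : ℝ) * (((∑ q : Fin n × Fin n,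
              (univ.filter (fun p => o.Rel E q p)).card : ℕ) : ℝ) + E.card) := h3'
          _ ≤ s ^ 7 * (C1 * (D ^ 3 * s ^ 20) + (D : ℝ) ^ 3 * s ^ 20) := by
              rw [hsn]
              refine mul_le_mul_of_nonneg_left (add_le_add h1 (hEn.trans h5)) (Nat.cast_nonneg _)
          _ = (C1 + 1) * ((D : ℝ) ^ 3 * s ^ 27) := by ring
      have h6 : (M.card : ℝ) ≤ E.card + D * s ^ 7 := by
        rw [hsn]
        exact_mod_cast hME
      have h7 : ((D : ℝ) * s ^ 7) ^ 2 ≤ (D : ℝ) ^ 3 * s ^ 27 := by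
        calc ((D : ℝ) * s ^ 7) ^ 2 = (D : ℝ) ^ 2 * 1 * (s ^ 14 * 1) := by ring
          _ ≤ (D : ℝ) ^ 2 * D * (s ^ 14 * s ^ 13) := by
              have e2 : 1 ≤ s ^ 13 := one_le_pow₀ hs
              gcongr
          _ = (D : ℝ) ^ 3 * s ^ 27 := by ring
      calc (M.card : ℝ) ^ 2 ≤ (E.card + D * s ^ 7) ^ 2 :=
            pow_le_pow_left₀ (Nat.cast_nonneg _) h6 2
        _ ≤ 2 * (E.card : ℝ) ^ 2 + 2 * ((D : ℝ) * s ^ 7) ^ 2 := by
            nlinarith [sq_nonneg ((E.card : ℝ) - D * s ^ 7)]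
        _ ≤ 2 * ((C1 + 1) * ((D : ℝ) ^ 3 * s ^ 27)) + 2 * ((D : ℝ) ^ 3 * s ^ 27) := by linarith
        _ ≤ (2 * (C1 + 1) + 16) * ((D : ℝ) ^ 3 * s ^ 27) := by nlinarith
    · push Not at hDs
      calc (M.card : ℝ) ^ 2 ≤ (s ^ 14) ^ 2 := pow_le_pow_left₀ (Nat.cast_nonneg _) hMn' 2
        _ = s * s ^ 27 := by ring
        _ ≤ s ^ 5 * s ^ 27 := by
            have e1 : s ≤ s ^ 5 := by
              calc s = s * 1 := by ring
                _ ≤ s * s ^ 4 := by
                    have : 1 ≤ s ^ 4 := one_le_pow₀ hs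
                    gcongr
                _ = s ^ 5 := by ring
            gcongr
        _ ≤ (12 * (D : ℝ) ^ 3) * s ^ 27 := by
            refine mul_le_mul_of_nonneg_right hDs.le (by positivity)
        _ = 12 * ((D : ℝ) ^ 3 * s ^ 27) := by ring
        _ ≤ (2 * (C1 + 1) + 16) * ((D : ℝ) ^ 3 * s ^ 27) := by
            refine mul_le_mul_of_nonneg_right ?_ hX0
            linarith
  have hHM : (H.card : ℝ) ≤ (3 * e + 1) * M.card := by exact_mod_cast hMc
  calc (H.card : ℝ) ^ 2 ≤ ((3 * e + 1) * M.card) ^ 2 :=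
        pow_le_pow_left₀ (Nat.cast_nonneg _) hHM 2
    _ = (3 * e + 1) ^ 2 * (M.card : ℝ) ^ 2 := by ring
    _ ≤ (3 * e + 1) ^ 2 * ((2 * (C1 + 1) + 16) * ((D : ℝ) ^ 3 * s ^ 27)) := by gcongr
    _ = _ := by ring

theorem main (e : ℕ) (he : e = 18 ∨ 22 ≤ e) : ∃ C : ℝ, ∀ (n D : ℕ)
    (H : Finset (Finset (Fin n))), 1 ≤ D → (∀ A ∈ H, A.card = 3) → OnCurves D H →
    (∀ U : Finset (Fin n), U.card = e + 3 → (H.filter (fun A => A ⊆ U)).card < e) →
    (H.card : ℝ) ≤ C * (D : ℝ) ^ (3 / 2 : ℝ) * (n : ℝ) ^ (2 - 1 / 14 : ℝ) := by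
  obtain ⟨C, hC, h⟩ := main_free e he
  refine ⟨C + (e + 3) ^ 3, ?_⟩
  intro n D H hD h3 hcur hfree
  have hD1 : (1 : ℝ) ≤ D := by exact_mod_cast hD
  have hD2 : (1 : ℝ) ≤ (D : ℝ) ^ (3 / 2 : ℝ) := Real.one_le_rpow hD1 (by norm_num)
  rcases Nat.eq_zero_or_pos n with hn | hn
  · subst hn
    have hH : H = ∅ := by
      rw [Finset.eq_empty_iff_forall_notMem]
      intro A hA
      have h1 := h3 A hA
      have h2 := Finset.card_le_univ A
      rw [Fintype.card_fin] at h2
      omega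
    rw [hH]
    simp only [Finset.card_empty, Nat.cast_zero]
    positivity
  have hn1 : (1 : ℝ) ≤ n := by exact_mod_cast hn
  have hn2 : (1 : ℝ) ≤ (n : ℝ) ^ (2 - 1 / 14 : ℝ) := Real.one_le_rpow hn1 (by norm_num)
  rcases lt_or_ge n (e + 3) with hlt | hge
  · have h1 : H.card ≤ n ^ 3 := by
      have h2 : H ⊆ (univ : Finset (Fin n)).powersetCard 3 := by
        intro A hA
        rw [Finset.mem_powersetCard]
        exact ⟨Finset.subset_univ _, h3 A hA⟩
      refine (Finset.card_le_card h2).trans ?_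
      rw [Finset.card_powersetCard, Finset.card_univ, Fintype.card_fin]
      exact Nat.choose_le_pow _ _
    have h2 : H.card ≤ (e + 3) ^ 3 := h1.trans (Nat.pow_le_pow_left hlt.le 3)
    have h4 : (H.card : ℝ) ≤ ((e : ℝ) + 3) ^ 3 := by exact_mod_cast h2
    calc (H.card : ℝ) ≤ ((e : ℝ) + 3) ^ 3 := h4
      _ ≤ (C + (e + 3) ^ 3) * 1 * 1 := by linarith
      _ ≤ (C + (e + 3) ^ 3) * (D : ℝ) ^ (3 / 2 : ℝ) * (n : ℝ) ^ (2 - 1 / 14 : ℝ) := by
          gcongr
  · set s : ℝ := (n : ℝ) ^ (1 / 7 : ℝ) with hs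
    have hs1 : 1 ≤ s := Real.one_le_rpow hn1 (by norm_num)
    have hsn : s ^ 7 = n := by
      rw [hs, ← Real.rpow_natCast, ← Real.rpow_mul (by linarith)]
      norm_num
    have hFree : Free e H := by
      intro U hU
      obtain ⟨V, hUV, hV⟩ := Finset.exists_superset_card_eq hU (by
        rw [Fintype.card_fin]; exact hge)
      refine lt_of_le_of_lt (Finset.card_le_card ?_) (hfree V hV)
      intro A hA
      rw [Finset.mem_filter] at hA ⊢
      exact ⟨hA.1, hA.2.trans hUV⟩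
    have h1 := h n D H s hD h3 hcur hFree hs1 hsn
    set Y : ℝ := (D : ℝ) ^ (3 / 2 : ℝ) * (n : ℝ) ^ (2 - 1 / 14 : ℝ) with hY
    have hYsq : Y ^ 2 = (D : ℝ) ^ 3 * s ^ 27 := by
      rw [hY, mul_pow, hs, ← Real.rpow_natCast, ← Real.rpow_natCast, ← Real.rpow_natCast,
        ← Real.rpow_natCast, ← Real.rpow_mul (by linarith), ← Real.rpow_mul (by linarith),
        ← Real.rpow_mul (by linarith)]
      norm_num
    have hY0 : 0 ≤ Y := by positivity
    rw [← hYsq] at h1
    have h2 : (H.card : ℝ) ≤ C * Y := by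
      have h4 : (H.card : ℝ) ^ 2 ≤ (C * Y) ^ 2 := by
        calc (H.card : ℝ) ^ 2 ≤ C * Y ^ 2 := h1
          _ = (C * 1) * Y ^ 2 := by ring
          _ ≤ (C * C) * Y ^ 2 := by gcongr
          _ = (C * Y) ^ 2 := by ring
      exact le_of_sq_le_sq h4 (by positivity)
    calc (H.card : ℝ) ≤ C * Y := h2
      _ ≤ (C + (e + 3) ^ 3) * Y := by
          refine mul_le_mul_of_nonneg_right ?_ hY0
          have : (0 : ℝ) ≤ ((e : ℝ) + 3) ^ 3 := by positivity
          linarith
      _ = _ := by rw [hY]; ring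

end Pool.Agent.U671.LC
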